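import Pool.Agent.Q23.ZB.Rep2

/-!
# Representations of block diagonal quaternion groups with swaps of blocks
-/

set_option autoImplicit false
set_option linter.unusedSectionVars false

namespace Q23.ZB

open Module Q150.ZS
open Q4.ZS (zq)

section

variable {n : ℕ} {V : Type} [AddCommGroup V] [Module ℝ V] [FiniteDimensional ℝ V]

/-- the vectors with `S = -1`, `S' = 1` -/
def Xs (S S' : V →ₗ[ℝ] V) : Submodule ℝ V := LinearMap.ker (S + 1) ⊓ LinearMap.ker (S' - 1)

theorem mem_Xs {S S' : V →ₗ[ℝ] V} {v : V} : v ∈ Xs S S' ↔ S v = -v ∧ S' v = v := by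
  constructor
  · rintro ⟨h1, h2⟩
    exact ⟨eq_neg_of_add_eq_zero_left h1, sub_eq_zero.1 h2⟩
  · rintro ⟨h1, h2⟩
    refine ⟨?_, ?_⟩
    · change S v + v = 0
      rw [h1, neg_add_cancel]
    · change S' v - v = 0
      rw [h2, sub_self]

/-- one sign change -/
def sg (i : Fin n) : Fin n → ℤˣ := fun j => if j = i then -1 else 1

theorem sg_self (i : Fin n) : sg i i = -1 := if_pos rfl

theorem sg_ne {i j : Fin n} (h : j ≠ i) : sg i j = 1 := if_neg h

theorem sg_swap (i a b : Fin n) : sg i ∘ Equiv.swap a b = sg (Equiv.swap a b i) := by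
  funext j
  change (if Equiv.swap a b j = i then (-1 : ℤˣ) else 1) = if j = Equiv.swap a b i then -1 else 1
  have h : Equiv.swap a b j = i ↔ j = Equiv.swap a b i := by
    constructor
    · intro h
      rw [← h, Equiv.swap_apply_self]
    · intro h
      rw [h, Equiv.swap_apply_self]
  by_cases h1 : Equiv.swap a b j = i
  · rw [if_pos h1, if_pos (h.1 h1)]
  · rw [if_neg h1, if_neg fun h2 => h1 (h.2 h2)]

/-- the product of the pairs of sign changes -/
theorem prod_pairs (τ : Fin n → Fin n) (hτ : ∀ i, τ (τ i) = i) (hτ' : ∀ i, τ i ≠ i)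
    (ε : Fin n → ℤˣ) (hε : ∀ i, ε (τ i) = ε i) :
    ∏ i ∈ Finset.univ.filter (fun i => i < τ i ∧ ε i = -1), (sg i * sg (τ i)) = ε := by
  funext j
  rw [Finset.prod_apply]
  have h1 : ∀ i, (sg i * sg (τ i)) j = (if j = i then (-1 : ℤˣ) else 1) *
      (if τ j = i then -1 else 1) := by
    intro i
    change (if j = i then (-1 : ℤˣ) else 1) * (if j = τ i then -1 else 1) = _
    have h : j = τ i ↔ τ j = i := by
      constructor
      · intro h
        rw [h, hτ]
      · intro h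
        rw [← h, hτ]
    by_cases h2 : j = τ i
    · rw [if_pos h2, if_pos (h.1 h2)]
    · rw [if_neg h2, if_neg fun h3 => h2 (h.2 h3)]
  rw [Finset.prod_congr rfl fun i _ => h1 i, Finset.prod_mul_distrib, Finset.prod_ite_eq,
    Finset.prod_ite_eq]
  have hm : ∀ i, i ∈ Finset.univ.filter (fun i => i < τ i ∧ ε i = -1) ↔ (i < τ i ∧ ε i = -1) := by
    intro i
    rw [Finset.mem_filter]
    exact ⟨fun h => h.2, fun h => ⟨Finset.mem_univ i, h⟩⟩
  have hm1 := hm j
  have hm2 := hm (τ j)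
  rw [hτ, hε] at hm2
  rcases Int.units_eq_one_or (ε j) with h | h
  · rw [if_neg fun h3 => ?_, if_neg fun h3 => ?_, h, one_mul]
    · have := (hm2.1 h3).2
      rw [h] at this
      exact absurd this (by decide)
    · have := (hm1.1 h3).2
      rw [h] at this
      exact absurd this (by decide)
  · rcases lt_or_gt_of_ne (hτ' j) with h2 | h2
    · rw [if_neg fun h3 => absurd (hm1.1 h3).1 (not_lt.2 h2.le), if_pos (hm2.2 ⟨h2, h⟩), h, one_mul]
    · rw [if_pos (hm1.2 ⟨h2, h⟩), if_neg fun h3 => absurd (hm2.1 h3).1 (not_lt.2 h2.le), h, mul_one]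

/-- the main lemma -/
theorem rblock (hn : 3 ≤ n) (τ : Fin n → Fin n) (hτ : ∀ i, τ (τ i) = i) (hτ' : ∀ i, τ i ≠ i)
    (ρ : (Fin n → QuaternionGroup 2) →* (V →ₗ[ℝ] V)) (t : Fin n → V →ₗ[ℝ] V)
    (htt : ∀ i v, t i (t i v) = v)
    (htz : ∀ (i : Fin n) (ε : Fin n → ℤˣ) v,
      t i (ρ (zq ε) v) = ρ (zq (ε ∘ Equiv.swap i (τ i))) (t i v))
    (hV : finrank ℝ V < 4 * n) :
    ∃ ε : Fin n → ℤˣ, (∃ i j, ε i ≠ ε j) ∧ ρ (zq ε) = 1 := by
  classical
  by_contra hcon
  have hconst : ∀ ε : Fin n → ℤˣ, ρ (zq ε) = 1 → ∀ i j, ε i = ε j := by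
    intro ε h i j
    by_contra hne
    exact hcon ⟨ε, ⟨i, j, hne⟩, h⟩
  let u : Fin n := ⟨0, by omega⟩
  let s : Fin n → V →ₗ[ℝ] V := fun i => ρ (zq (sg i))
  have hts : ∀ i j v, t i (s j v) = s (Equiv.swap i (τ i) j) (t i v) := by
    intro i j v
    change t i (ρ (zq (sg j)) v) = ρ (zq (sg (Equiv.swap i (τ i) j))) (t i v)
    rw [htz, sg_swap]
  have hss : ∀ i v, s i (s i v) = v := fun i v => zinv ρ _ v
  have hsc : ∀ i a v, s i (ρ a v) = ρ a (s i v) := fun i a v => zcomm ρ _ a v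
  let X : Fin n → Submodule ℝ V := fun i => Xs (s i) (s (τ i))
  have hXi : ∀ i, Inv ρ (X i) := by
    intro i a v hv
    rw [mem_Xs] at hv ⊢
    rw [hsc, hsc, hv.1, hv.2, map_neg]
    exact ⟨rfl, rfl⟩
  have hTX : ∀ i, ∀ v ∈ X i, t i v ∈ X (τ i) := by
    intro i v hv
    rw [mem_Xs] at hv ⊢
    have h1 := hts i i v
    have h2 := hts i (τ i) v
    rw [Equiv.swap_apply_left] at h1
    rw [Equiv.swap_apply_right] at h2
    rw [hτ, ← h1, ← h2, hv.1, hv.2, map_neg]
    exact ⟨rfl, rfl⟩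
  have hTX' : ∀ i, ∀ v ∈ X (τ i), t i v ∈ X i := by
    intro i v hv
    rw [mem_Xs, hτ] at hv
    rw [mem_Xs]
    have h1 := hts i i v
    have h2 := hts i (τ i) v
    rw [Equiv.swap_apply_left] at h1
    rw [Equiv.swap_apply_right] at h2
    rw [← h1, ← h2, hv.1, hv.2, map_neg]
    exact ⟨rfl, rfl⟩
  have hdisj : ∀ i v, v ∈ X i → v ∈ X (τ i) → v = 0 := by
    intro i v h1 h2
    rw [mem_Xs] at h1 h2
    rw [hτ] at h2
    exact self_neg (h2.2.symm.trans h1.1)
  -- elements trivial modulo `X u`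
  have hmul : ∀ ε ε' : Fin n → ℤˣ, (∀ v, ρ (zq ε) v - v ∈ X u) → (∀ v, ρ (zq ε') v - v ∈ X u) →
      ∀ v, ρ (zq (ε * ε')) v - v ∈ X u := by
    intro ε ε' h1 h2 v
    have h3 : ρ (zq (ε * ε')) v - v = ρ (zq ε) (ρ (zq ε') v - v) + (ρ (zq ε) v - v) := by
      rw [zz, map_sub]
      abel
    rw [h3]
    exact (X u).add_mem (hXi u _ _ (h2 v)) (h1 v)
  have hY1 : ∀ ε : Fin n → ℤˣ, (∀ v, ρ (zq ε) v - v ∈ X u) → ∀ y ∈ X (τ u),
      ρ (zq ε) y = y := by
    intro ε h y hy
    exact sub_eq_zero.1 (hdisj u _ (h y) ((X (τ u)).sub_mem (hXi (τ u) _ _ hy) hy))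
  have hA : ∀ ε : Fin n → ℤˣ, ε u = ε (τ u) → (∀ v, ρ (zq ε) v - v ∈ X u) → ρ (zq ε) = 1 := by
    intro ε hε h
    have h1 : ε ∘ Equiv.swap u (τ u) = ε := by
      funext j
      change ε (Equiv.swap u (τ u) j) = ε j
      by_cases h2 : j = u
      · rw [h2, Equiv.swap_apply_left, hε]
      · by_cases h3 : j = τ u
        · rw [h3, Equiv.swap_apply_right, hε]
        · rw [Equiv.swap_apply_of_ne_of_ne h2 h3]
    refine unip ρ (X u) ε h fun x hx => ?_
    have h2 := hY1 ε h _ (hTX u x hx)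
    have h3 := htz u ε x
    rw [h1] at h3
    rw [← h3] at h2
    have h4 := congrArg (t u) h2
    rwa [htt, htt] at h4
  have hone : ∀ ε : Fin n → ℤˣ, ε u = 1 → ε (τ u) = 1 → (∀ v, ρ (zq ε) v - v ∈ X u) → ε = 1 := by
    intro ε h1 h2 h3
    have h4 := hconst ε (hA ε (h1.trans h2.symm) h3)
    funext j
    rw [h4 j u, h1]
    rfl
  have hinj : ∀ S0 : Subgroup (Fin n → ℤˣ), (∀ ε ∈ S0, ∀ v, ρ (zq ε) v - v ∈ X u) →
      Function.Injective (fun ε : S0 => (ε.1 u, ε.1 (τ u))) := by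
    intro S0 hS0 ε ε' h
    have h1 : ε.1 u = ε'.1 u := congrArg Prod.fst h
    have h2 : ε.1 (τ u) = ε'.1 (τ u) := congrArg Prod.snd h
    have h3 := hone (ε.1 * ε'.1) (by
      change ε.1 u * ε'.1 u = 1
      rw [h1, Int.units_mul_self]) (by
      change ε.1 (τ u) * ε'.1 (τ u) = 1
      rw [h2, Int.units_mul_self]) (hmul _ _ (hS0 _ ε.2) (hS0 _ ε'.2))
    apply Subtype.ext
    funext j
    have h4 : ε.1 j * ε'.1 j = 1 := congrFun h3 j
    rw [mul_eq_one_iff_eq_inv, Int.units_inv_eq_self] at h4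
    exact h4
  have hcard4 : Nat.card (ℤˣ × ℤˣ) = 4 := by
    rw [Nat.card_prod, Nat.card_eq_fintype_card (α := ℤˣ), Fintype.card_units_int]
  -- the dimension of `X u` is at most seven
  have hX7 : finrank ℝ (X u) ≤ 7 := by
    by_contra hlt
    obtain ⟨S0, h1, h2⟩ := kc 2 ρ (X u) (hXi u) (by omega)
    have h3 := Nat.card_le_card_of_injective _ (hinj S0 h2)
    rw [hcard4] at h3
    omega
  -- `X u` is not zero
  have hX0 : X u ≠ ⊥ := by
    intro hX
    have hY : ∀ v ∈ X (τ u), v = 0 := by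
      intro v hv
      have h1 := hTX' u v hv
      rw [hX, Submodule.mem_bot] at h1
      rw [← htt u v, h1, map_zero]
    obtain ⟨w, hw⟩ : ∃ w : Fin n, w ≠ u ∧ w ≠ τ u := by
      have h3 : ({u, τ u} : Finset (Fin n)).card < (Finset.univ : Finset (Fin n)).card := by
        rw [Finset.card_univ, Fintype.card_fin]
        exact lt_of_le_of_lt Finset.card_le_two (by omega)
      obtain ⟨w, -, hw⟩ := Finset.exists_mem_notMem_of_card_lt_card h3
      simp only [Finset.mem_insert, Finset.mem_singleton, not_or] at hw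
      exact ⟨w, hw⟩
    apply hcon
    refine ⟨sg u * sg (τ u), ⟨u, w, ?_⟩, ?_⟩
    · change sg u u * sg (τ u) u ≠ sg u w * sg (τ u) w
      rw [sg_self, sg_ne (hτ' u).symm, sg_ne hw.1, sg_ne hw.2]
      decide
    · ext v
      rw [zz]
      change s u (s (τ u) v) = v
      by_contra hv0
      set w' := v - s u (s (τ u) v) with hw'
      have hc : ∀ v, s u (s (τ u) v) = s (τ u) (s u v) := fun v => hsc u _ v
      have hw0 : w' ≠ 0 := fun h => hv0 (sub_eq_zero.1 h).symm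
      have hw1 : s u (s (τ u) w') = -w' := by
        rw [hw', map_sub, map_sub, hc (s u (s (τ u) v)), hss, hss]
        abel
      have hw1' : s (τ u) (s u w') = -w' := by rw [← hc]; exact hw1
      have h2 : w' - s u w' ∈ X u := by
        rw [mem_Xs]
        have h4 : s (τ u) w' = -(s u w') := by
          rw [← hss u (s (τ u) w'), hw1, map_neg]
        refine ⟨?_, ?_⟩
        · rw [map_sub, hss]
          abel
        · rw [map_sub, hw1', h4]
          abel
      rw [hX, Submodule.mem_bot] at h2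
      have h3 : s u w' = w' := (sub_eq_zero.1 h2).symm
      refine hw0 (hY w' ?_)
      rw [mem_Xs, hτ]
      refine ⟨?_, h3⟩
      nth_rewrite 1 [← h3]
      exact hw1'
  have hX4 : 4 ≤ finrank ℝ (X u) :=
    four ρ (X u) (hXi u) (sg u) (fun w hw => (mem_Xs.1 hw).1) hX0
  -- the element `κ`
  obtain ⟨κ, hκu, hκu', hκX⟩ : ∃ κ : Fin n → ℤˣ, κ u = 1 ∧ κ (τ u) = -1 ∧
      ∀ v, ρ (zq κ) v - v ∈ X u := by
    obtain ⟨S0, h1, h2⟩ := kc 1 ρ (X u) (hXi u) (by omega)
    have h3 := (Nat.bijective_iff_injective_and_card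
      (fun ε : S0 => (ε.1 u, ε.1 (τ u)))).2 ⟨hinj S0 h2, le_antisymm
        (Nat.card_le_card_of_injective _ (hinj S0 h2)) (by rw [hcard4]; exact h1)⟩
    obtain ⟨ε, hε⟩ := h3.2 (1, -1)
    exact ⟨ε.1, congrArg Prod.fst hε, congrArg Prod.snd hε, h2 _ ε.2⟩
  -- `κ` is invariant under the other swaps
  have hκτ : ∀ i, i ≠ u → i ≠ τ u → κ (τ i) = κ i := by
    intro i hi1 hi2
    have hi3 : u ≠ τ i := fun h => hi2 (by rw [h, hτ])
    have hi4 : τ u ≠ τ i := fun h => hi1 (by rw [← hτ i, ← h, hτ])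
    have e1 : Equiv.swap i (τ i) u = u := Equiv.swap_apply_of_ne_of_ne hi1.symm hi3
    have e2 : Equiv.swap i (τ i) (τ u) = τ u := Equiv.swap_apply_of_ne_of_ne hi2.symm hi4
    have h1 : ∀ v, v ∈ X u → t i v ∈ X u := by
      intro v hv
      rw [mem_Xs] at hv ⊢
      have h2 := hts i u v
      have h3 := hts i (τ u) v
      rw [e1] at h2
      rw [e2] at h3
      rw [← h2, ← h3, hv.1, hv.2, map_neg]
      exact ⟨rfl, rfl⟩
    have h2 : ∀ v, ρ (zq (κ ∘ Equiv.swap i (τ i))) v - v ∈ X u := by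
      intro v
      have h3 := h1 _ (hκX (t i v))
      rw [map_sub, htz, htt] at h3
      exact h3
    have h3 := hone (κ * (κ ∘ Equiv.swap i (τ i))) (by
      change κ u * κ (Equiv.swap i (τ i) u) = 1
      rw [e1, Int.units_mul_self]) (by
      change κ (τ u) * κ (Equiv.swap i (τ i) (τ u)) = 1
      rw [e2, Int.units_mul_self]) (hmul _ _ hκX h2)
    have h4 : κ i * κ (Equiv.swap i (τ i) i) = 1 := congrFun h3 i
    rw [Equiv.swap_apply_left, mul_eq_one_iff_eq_inv, Int.units_inv_eq_self] at h4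
    exact h4.symm
  -- `κ` acts as `-1` on `X u`
  have hκ1 : ∀ x ∈ X u, ρ (zq κ) x = -x := by
    intro x hx
    have hy := hTX u x hx
    have h1 := hY1 κ hκX _ hy
    have h2 : (κ * (sg u * sg (τ u))) ∘ Equiv.swap u (τ u) = κ := by
      funext j
      change κ (Equiv.swap u (τ u) j) * (sg u (Equiv.swap u (τ u) j) *
        sg (τ u) (Equiv.swap u (τ u) j)) = κ j
      by_cases hj : j = u
      · rw [hj, Equiv.swap_apply_left, sg_ne (hτ' u), sg_self, hκu, hκu']
        decide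
      · by_cases hj' : j = τ u
        · rw [hj', Equiv.swap_apply_right, sg_self, sg_ne (hτ' u).symm, hκu, hκu']
          decide
        · rw [Equiv.swap_apply_of_ne_of_ne hj hj', sg_ne hj, sg_ne hj', mul_one, mul_one]
    have h3 := htz u (κ * (sg u * sg (τ u))) (t u x)
    rw [h2, htt, zz, zz] at h3
    rw [← h3]
    rw [mem_Xs, hτ] at hy
    have h4 : ρ (zq (sg u)) (ρ (zq (sg (τ u))) (t u x)) = -(t u x) := by
      change s u (s (τ u) (t u x)) = _
      rw [hy.1, map_neg, hy.2]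
    rw [h4, map_neg, h1, map_neg, htt]
  -- the other pairs act trivially on `X u`
  have hpair : ∀ i, i ≠ u → i ≠ τ u → ∀ x ∈ X u, s i (s (τ i) x) = x := by
    intro i hi1 hi2 x hx
    by_contra hne
    have hi3 : u ≠ τ i := fun h => hi2 (by rw [h, hτ])
    have hi4 : τ u ≠ τ i := fun h => hi1 (by rw [← hτ i, ← h, hτ])
    have e1 : Equiv.swap i (τ i) u = u := Equiv.swap_apply_of_ne_of_ne hi1.symm hi3
    have e2 : Equiv.swap i (τ i) (τ u) = τ u := Equiv.swap_apply_of_ne_of_ne hi2.symm hi4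
    have h1 : ∀ v, v ∈ X u → t i v ∈ X u := by
      intro v hv
      rw [mem_Xs] at hv ⊢
      have h2 := hts i u v
      have h3 := hts i (τ u) v
      rw [e1] at h2
      rw [e2] at h3
      rw [← h2, ← h3, hv.1, hv.2, map_neg]
      exact ⟨rfl, rfl⟩
    have hI1 : Inv ρ (X u ⊓ X i) := fun a v hv => ⟨hXi u a v hv.1, hXi i a v hv.2⟩
    have hI2 : Inv ρ (X u ⊓ X (τ i)) := fun a v hv => ⟨hXi u a v hv.1, hXi (τ i) a v hv.2⟩
    have hc : ∀ v, s i (s (τ i) v) = s (τ i) (s i v) := fun v => hsc i _ v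
    set w' := x - s i (s (τ i) x) with hw'
    have hw0 : w' ≠ 0 := fun h => hne (sub_eq_zero.1 h).symm
    have hwX : w' ∈ X u := (X u).sub_mem hx (hXi u _ _ (hXi u _ _ hx))
    have hw1 : s i (s (τ i) w') = -w' := by
      rw [hw', map_sub, map_sub, hc (s i (s (τ i) x)), hss, hss]
      abel
    have hw1' : s (τ i) (s i w') = -w' := by rw [← hc]; exact hw1
    have h4 : s (τ i) w' = -(s i w') := by
      rw [← hss i (s (τ i) w'), hw1, map_neg]
    have h2 : w' - s i w' ∈ X u ⊓ X i := by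
      refine ⟨(X u).sub_mem hwX (hXi u _ _ hwX), mem_Xs.2 ⟨?_, ?_⟩⟩
      · rw [map_sub, hss]
        abel
      · rw [map_sub, hw1', h4]
        abel
    have h3 : w' + s i w' ∈ X u ⊓ X (τ i) := by
      refine ⟨(X u).add_mem hwX (hXi u _ _ hwX), mem_Xs.2 ⟨?_, ?_⟩⟩
      · rw [map_add, hw1', h4]
        abel
      · rw [hτ, map_add, hss]
        abel
    have h5 : X u ⊓ X i ≠ ⊥ := by
      intro h6
      have h7 : X u ⊓ X (τ i) = ⊥ := by
        rw [eq_bot_iff]
        intro v hv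
        have h8 : t i v ∈ X u ⊓ X i := ⟨h1 v hv.1, hTX' i v hv.2⟩
        rw [h6, Submodule.mem_bot] at h8
        rw [Submodule.mem_bot, ← htt i v, h8, map_zero]
      rw [h6, Submodule.mem_bot] at h2
      rw [h7, Submodule.mem_bot] at h3
      apply hw0
      rw [← sub_eq_zero.1 h2] at h3
      apply self_neg
      exact eq_neg_of_add_eq_zero_left h3
    have h5' : X u ⊓ X (τ i) ≠ ⊥ := by
      intro h6
      apply h5
      rw [eq_bot_iff]
      intro v hv
      have h8 : t i v ∈ X u ⊓ X (τ i) := ⟨h1 v hv.1, hTX i v hv.2⟩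
      rw [h6, Submodule.mem_bot] at h8
      rw [Submodule.mem_bot, ← htt i v, h8, map_zero]
    have d1 := four ρ _ hI1 (sg i) (fun w hw => (mem_Xs.1 hw.2).1) h5
    have d2 := four ρ _ hI2 (sg (τ i)) (fun w hw => (mem_Xs.1 hw.2).1) h5'
    have d3 := Submodule.finrank_sup_add_finrank_inf_eq (X u ⊓ X i) (X u ⊓ X (τ i))
    have d4 : (X u ⊓ X i) ⊓ (X u ⊓ X (τ i)) = ⊥ := by
      rw [eq_bot_iff]
      intro v hv
      exact hdisj i v hv.1.2 hv.2.2
    rw [d4, finrank_bot, add_zero] at d3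
    have d5 : finrank ℝ ((X u ⊓ X i) ⊔ (X u ⊓ X (τ i)) : Submodule ℝ V) ≤ finrank ℝ (X u) :=
      Submodule.finrank_mono (sup_le inf_le_left inf_le_left)
    omega
  -- the contradiction
  obtain ⟨x, hx, hx0⟩ := Submodule.exists_mem_ne_zero_of_ne_bot hX0
  let P : Subgroup (Fin n → ℤˣ) :=
    { carrier := {ε | ∀ x ∈ X u, ρ (zq ε) x = x}
      one_mem' := fun x _ => z1 ρ x
      mul_mem' := by
        intro ε ε' h h' x hx
        rw [zz, h' x hx, h x hx]
      inv_mem' := by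
        intro ε h x hx
        have h1 : ε⁻¹ = ε := by
          funext i
          exact Int.units_inv_eq_self _
        rw [h1]
        exact h x hx }
  let ε : Fin n → ℤˣ := κ * sg (τ u)
  have hεu : ε u = 1 := by
    change κ u * sg (τ u) u = 1
    rw [hκu, sg_ne (hτ' u).symm, mul_one]
  have hεu' : ε (τ u) = 1 := by
    change κ (τ u) * sg (τ u) (τ u) = 1
    rw [hκu', sg_self]
    decide
  have hετ : ∀ i, ε (τ i) = ε i := by
    intro i
    by_cases hi1 : i = u
    · rw [hi1, hεu, hεu']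
    · by_cases hi2 : i = τ u
      · rw [hi2, hτ, hεu, hεu']
      · change κ (τ i) * sg (τ u) (τ i) = κ i * sg (τ u) i
        rw [hκτ i hi1 hi2, sg_ne hi2, sg_ne fun h => hi1 (by rw [← hτ i, h, hτ])]
  have hεP : ε ∈ P := by
    rw [← prod_pairs τ hτ hτ' ε hετ]
    refine Subgroup.prod_mem P fun i hi => ?_
    rw [Finset.mem_filter] at hi
    intro x hx
    rw [zz]
    refine hpair i ?_ ?_ x hx
    · rintro h
      rw [h, hεu] at hi
      exact absurd hi.2.2 (by decide)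
    · rintro h
      rw [h, hεu'] at hi
      exact absurd hi.2.2 (by decide)
  have h1 := hκ1 x hx
  have h2 : κ = ε * sg (τ u) := by
    funext j
    change κ j = κ j * sg (τ u) j * sg (τ u) j
    rw [mul_assoc, Int.units_mul_self, mul_one]
  rw [h2, zz] at h1
  have h3 : ρ (zq (sg (τ u))) x = x := (mem_Xs.1 hx).2
  rw [h3] at h1
  have h4 : ρ (zq ε) x = x := hεP x hx
  rw [h4] at h1
  exact hx0 (self_neg h1)

end

end Q23.ZB
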