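import Pool.Agent.Q23.ZB.El
import Pool.Agent.Q23.ZB.Rep3

/-!
# Block diagonal matrices with quaternion blocks
-/

set_option autoImplicit false
set_option linter.unusedSectionVars false

open Matrix

namespace Q23.ZB

open Q4.ZS (zq)

/-- the homomorphism given by two anticommuting square roots of a central involution -/
def qh {G : Type} [Group G] (I J : G) (h4 : I ^ 4 = 1) (hJ : J * J = I * I)
    (hIJ : ∀ k : ℕ, I ^ k * J * I ^ k = J) : QuaternionGroup 2 →* G where
  toFun
    | .a i => I ^ i.val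
    | .xa i => J * I ^ i.val
  map_one' := by
    change I ^ (0 : ZMod (2 * 2)).val = 1
    rw [ZMod.val_zero, pow_zero]
  map_mul' := by
    have hmod : ∀ N : ℕ, I ^ (N % 4) = I ^ N := by
      intro N
      nth_rewrite 2 [← Nat.mod_add_div N 4]
      rw [pow_add, pow_mul, h4, one_pow, mul_one]
    have hadd : ∀ i j : ZMod (2 * 2), I ^ (i + j).val = I ^ i.val * I ^ j.val := by
      intro i j
      rw [← pow_add, ZMod.val_add]
      exact hmod _
    have hinv : ∀ i : ZMod (2 * 2), I ^ (-i).val * I ^ i.val = 1 := by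
      intro i
      rw [← hadd, neg_add_cancel, ZMod.val_zero, pow_zero]
    have hcomm : ∀ i : ZMod (2 * 2), I ^ i.val * J = J * I ^ (-i).val := by
      intro i
      have h5 := hIJ i.val
      have h6 : I ^ i.val * J = J * (I ^ i.val)⁻¹ := eq_mul_inv_iff_mul_eq.2 h5
      rw [h6]
      congr 1
      exact (eq_inv_of_mul_eq_one_left (hinv i)).symm
    intro x y
    rcases x with i | i <;> rcases y with j | j
    · change I ^ (i + j).val = I ^ i.val * I ^ j.val
      exact hadd i j
    · change J * I ^ (j - i).val = I ^ i.val * (J * I ^ j.val)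
      rw [← mul_assoc, hcomm, mul_assoc, ← hadd, sub_eq_neg_add]
    · change J * I ^ (i + j).val = J * I ^ i.val * I ^ j.val
      rw [hadd, mul_assoc]
    · change I ^ ((2 : ℕ) + j - i : ZMod (2 * 2)).val = J * I ^ i.val * (J * I ^ j.val)
      have h5 : J * I ^ i.val * (J * I ^ j.val) = J * (I ^ i.val * J) * I ^ j.val := by
        simp only [mul_assoc]
      have h6 : ((2 : ℕ) + j - i : ZMod (2 * 2)) = ((2 : ℕ) : ZMod (2 * 2)) + (-i + j) := by ring
      rw [h5, hcomm, h6, hadd, hadd, ← mul_assoc J J, hJ, mul_assoc (I * I)]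
      congr 1
      have h7 : ((2 : ℕ) : ZMod (2 * 2)).val = 2 := rfl
      rw [h7, pow_two]

theorem qh_mem {G : Type} [Group G] (I J : G) (h4 : I ^ 4 = 1) (hJ : J * J = I * I)
    (hIJ : ∀ k : ℕ, I ^ k * J * I ^ k = J) (x : QuaternionGroup 2) :
    qh I J h4 hJ hIJ x ∈ Subgroup.closure ({I, J} : Set G) := by
  have hI : I ∈ Subgroup.closure ({I, J} : Set G) := Subgroup.subset_closure (Or.inl rfl)
  have hJ' : J ∈ Subgroup.closure ({I, J} : Set G) := Subgroup.subset_closure (Or.inr rfl)
  rcases x with i | i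
  · exact Subgroup.pow_mem _ hI _
  · exact Subgroup.mul_mem _ hJ' (Subgroup.pow_mem _ hI _)

section

variable {R : Type} [Ring R] {m n e : ℕ}

/-- block diagonal matrices with `n` blocks of size `m` and an identity block of size `e` -/
def bm0 : (Fin n → Matrix (Fin m) (Fin m) R) →*
    Matrix ((Fin m × Fin n) ⊕ Fin e) ((Fin m × Fin n) ⊕ Fin e) R where
  toFun h := fromBlocks (blockDiagonal h) 0 0 1
  map_one' := by
    rw [blockDiagonal_one, fromBlocks_one]
  map_mul' h h' := by
    rw [fromBlocks_multiply, ← blockDiagonal_mul]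
    simp only [Matrix.mul_zero, Matrix.zero_mul, add_zero, zero_add, mul_one]
    rfl

/-- block diagonal matrices -/
def bm : (Fin n → GL (Fin m) R) →* GL ((Fin m × Fin n) ⊕ Fin e) R :=
  (Units.map bm0).comp (MulEquiv.piUnits
    (M := fun _ : Fin n => Matrix (Fin m) (Fin m) R)).symm.toMonoidHom

theorem bm_val (h : Fin n → GL (Fin m) R) : (bm (e := e) h).1 =
    fromBlocks (blockDiagonal fun i => (h i).1) 0 0 1 := rfl

theorem rel (I J : GL (Fin m) R) (hI : I * I = -1) (hJ : J * J = -1) (hIJ : I * J = -(J * I)) :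
    I ^ 4 = 1 ∧ J * J = I * I ∧ ∀ k : ℕ, I ^ k * J * I ^ k = J := by
  refine ⟨?_, hJ.trans hI.symm, ?_⟩
  · have h1 : I ^ 4 = (I * I) * (I * I) := by
      rw [← pow_two, ← pow_two, ← pow_mul]
    rw [h1, hI, neg_mul_neg, one_mul]
  · intro k
    induction k with
    | zero => rw [pow_zero, one_mul, mul_one]
    | succ k ih =>
      have h1 : I ^ (k + 1) * J * I ^ (k + 1) = I ^ k * (I * J * I) * I ^ k := by
        rw [pow_succ]
        nth_rewrite 2 [← pow_succ]
        rw [pow_succ']
        simp only [mul_assoc]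
      have h2 : I * J * I = J := by
        rw [hIJ, neg_mul, mul_assoc, hI, mul_neg, mul_one, neg_neg]
      rw [h1, h2, ih]

/-- the homomorphism from the power of the quaternion group -/
def qm (I J : GL (Fin m) R) (hI : I * I = -1) (hJ : J * J = -1) (hIJ : I * J = -(J * I)) :
    QuaternionGroup 2 →* GL (Fin m) R :=
  qh I J (rel I J hI hJ hIJ).1 (rel I J hI hJ hIJ).2.1 (rel I J hI hJ hIJ).2.2

theorem qm_sign (I J : GL (Fin m) R) (hI : I * I = -1) (hJ : J * J = -1)
    (hIJ : I * J = -(J * I)) (u : ℤˣ) :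
    (qm I J hI hJ hIJ (if u = 1 then 1 else QuaternionGroup.a 2)).1 = ((u : ℤ) : R) • 1 := by
  rcases Int.units_eq_one_or u with rfl | rfl
  · rw [if_pos rfl, map_one]
    simp
  · rw [if_neg (by decide)]
    have h1 : qm I J hI hJ hIJ (QuaternionGroup.a 2) = I ^ 2 := rfl
    rw [h1, pow_two, hI]
    simp

/-- the hom to block diagonal matrices -/
def qb (I J : GL (Fin m) R) (hI : I * I = -1) (hJ : J * J = -1) (hIJ : I * J = -(J * I)) :
    (Fin n → QuaternionGroup 2) →* GL ((Fin m × Fin n) ⊕ Fin e) R :=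
  bm.comp (MonoidHom.pi fun i => (qm I J hI hJ hIJ).comp (Pi.evalMonoidHom _ i))

theorem qb_val (I J : GL (Fin m) R) (hI : I * I = -1) (hJ : J * J = -1)
    (hIJ : I * J = -(J * I)) (q : Fin n → QuaternionGroup 2) :
    (qb (e := e) I J hI hJ hIJ q).1 =
      fromBlocks (blockDiagonal fun i => (qm I J hI hJ hIJ (q i)).1) 0 0 1 := rfl

theorem qb_sign (I J : GL (Fin m) R) (hI : I * I = -1) (hJ : J * J = -1)
    (hIJ : I * J = -(J * I)) (ε : Fin n → ℤˣ) :
    (qb (e := e) I J hI hJ hIJ (zq ε)).1 =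
      diagonal (Sum.elim (fun p => ((ε p.2 : ℤ) : R)) fun _ => 1) := by
  rw [qb_val]
  have h1 : ∀ i, (qm I J hI hJ hIJ (zq ε i)).1 = diagonal fun _ => ((ε i : ℤ) : R) := by
    intro i
    have h2 := qm_sign I J hI hJ hIJ (ε i)
    change (qm I J hI hJ hIJ (if ε i = 1 then 1 else QuaternionGroup.a 2)).1 = _
    rw [h2, Matrix.smul_one_eq_diagonal]
  simp only [h1]
  rw [blockDiagonal_diagonal, ← fromBlocks_diagonal, ← Matrix.diagonal_one]

end

section

variable {R ι : Type} [Ring R] [Fintype ι] [DecidableEq ι]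

theorem perm_diag (σ : Equiv.Perm ι) (d : ι → R) :
    σ.permMatrix R * diagonal d = diagonal (d ∘ σ) * σ.permMatrix R := by
  ext i j
  rw [Matrix.mul_diagonal, Matrix.diagonal_mul]
  change (if j ∈ σ.toPEquiv i then (1 : R) else 0) * d j =
    d (σ i) * (if j ∈ σ.toPEquiv i then (1 : R) else 0)
  by_cases h : j ∈ σ.toPEquiv i
  · have h1 : σ i = j := Option.some_injective _ h
    rw [if_pos h, h1, one_mul, mul_one]
  · rw [if_neg h, zero_mul, mul_zero]

theorem perm_perm (σ : Equiv.Perm ι) (hσ : ∀ i, σ (σ i) = i) :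
    σ.permMatrix R * σ.permMatrix R = 1 := by
  have h1 : σ * σ = 1 := Equiv.ext hσ
  rw [← Matrix.permMatrix_mul, h1, Matrix.permMatrix_one]

end

end Q23.ZB
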