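import Pool.Agent.Q23.ZQ.Main

/-!
# Elementary matrices with an arbitrary finite index set
-/

set_option autoImplicit false
set_option linter.unusedSectionVars false

open Matrix

namespace Q23.ZB

open Q23.ZQ

/-- the group generated by the elementary matrices -/
def El (R ι : Type) [Ring R] [Fintype ι] [DecidableEq ι] : Subgroup (GL ι R) :=
  Subgroup.closure {x | ∃ (a b : ι) (c : R), a ≠ b ∧ x.1 = 1 + Matrix.single a b c}

/-- the normal subgroup of `El` generated by the elementary matrices `1 + 2 c e_{ab}` -/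
def El2 (R ι : Type) [Ring R] [Fintype ι] [DecidableEq ι] : Subgroup (GL ι R) :=
  Subgroup.closure {x | ∃ (h : GL ι R) (a b : ι) (c : R), h ∈ El R ι ∧ a ≠ b ∧
    x.1 = h.1 * (1 + Matrix.single a b (2 * c)) * h⁻¹.1}

section

variable {R : Type} [Ring R] {ι κ : Type} [Fintype ι] [DecidableEq ι] [Fintype κ] [DecidableEq κ]

/-- renaming the indices -/
def rx (e : ι ≃ κ) : GL ι R ≃* GL κ R :=
  Units.mapEquiv (Matrix.reindexRingEquiv R e).toMulEquiv

theorem rx_val (e : ι ≃ κ) (g : GL ι R) : (rx e g).1 = Matrix.reindexRingEquiv R e g.1 := rfl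

theorem rx_single (e : ι ≃ κ) (a b : ι) (c : R) :
    Matrix.reindexRingEquiv R e (1 + Matrix.single a b c) = 1 + Matrix.single (e a) (e b) c := by
  rw [map_add, map_one]
  congr 1
  ext i j
  change Matrix.single a b c (e.symm i) (e.symm j) = _
  rw [Matrix.single_apply, Matrix.single_apply]
  by_cases h : e a = i ∧ e b = j
  · rw [if_pos h, if_pos ⟨by rw [← h.1, Equiv.symm_apply_apply], by rw [← h.2, Equiv.symm_apply_apply]⟩]
  · rw [if_neg h, if_neg fun h1 => h ⟨by rw [h1.1, Equiv.apply_symm_apply],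
      by rw [h1.2, Equiv.apply_symm_apply]⟩]

theorem rx_El {N : ℕ} (e : ι ≃ Fin N) : (El R ι).map (rx e).toMonoidHom = Eg R N := by
  unfold El Eg
  rw [MonoidHom.map_closure]
  congr 1
  ext x
  constructor
  · rintro ⟨y, ⟨a, b, c, hab, hy⟩, rfl⟩
    refine ⟨e a, e b, c, fun h => hab (e.injective h), ?_⟩
    change Matrix.reindexRingEquiv R e y.1 = _
    rw [hy, rx_single]
  · rintro ⟨a, b, c, hab, hx⟩
    refine ⟨(rx e).symm x, ⟨e.symm a, e.symm b, c, fun h => hab (e.symm.injective h), ?_⟩,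
      (rx e).apply_symm_apply x⟩
    apply (Matrix.reindexRingEquiv R e).injective
    rw [rx_single, Equiv.apply_symm_apply, Equiv.apply_symm_apply, ← hx, ← rx_val,
      MulEquiv.apply_symm_apply]

theorem rx_El_mem {N : ℕ} (e : ι ≃ Fin N) (x : GL ι R) : rx e x ∈ Eg R N ↔ x ∈ El R ι := by
  rw [← rx_El e]
  constructor
  · rintro ⟨y, hy, h⟩
    have : y = x := (rx e).injective h
    rwa [← this]
  · intro h
    exact ⟨x, h, rfl⟩

theorem rx_El2 {N : ℕ} (e : ι ≃ Fin N) : (El2 R ι).map (rx e).toMonoidHom = E2 R N := by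
  unfold El2 E2
  rw [MonoidHom.map_closure]
  congr 1
  ext x
  constructor
  · rintro ⟨y, ⟨h, a, b, c, hh, hab, hy⟩, rfl⟩
    refine ⟨rx e h, e a, e b, c, (rx_El_mem e h).2 hh, fun h => hab (e.injective h), ?_⟩
    change Matrix.reindexRingEquiv R e y.1 = _
    rw [hy, map_mul, map_mul, rx_single, ← map_inv]
    rfl
  · rintro ⟨h, a, b, c, hh, hab, hx⟩
    refine ⟨(rx e).symm x, ⟨(rx e).symm h, e.symm a, e.symm b, c, ?_,
      fun h => hab (e.symm.injective h), ?_⟩, (rx e).apply_symm_apply x⟩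
    · rw [← rx_El_mem e, MulEquiv.apply_symm_apply]
      exact hh
    · apply (Matrix.reindexRingEquiv R e).injective
      rw [map_mul, map_mul, rx_single, Equiv.apply_symm_apply, Equiv.apply_symm_apply, ← map_inv,
        ← rx_val, ← rx_val, ← rx_val, MulEquiv.apply_symm_apply, MulEquiv.apply_symm_apply,
        MulEquiv.apply_symm_apply, hx]

theorem rx_El2_mem {N : ℕ} (e : ι ≃ Fin N) (x : GL ι R) : rx e x ∈ E2 R N ↔ x ∈ El2 R ι := by
  rw [← rx_El2 e]
  constructor
  · rintro ⟨y, hy, h⟩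
    have : y = x := (rx e).injective h
    rwa [← this]
  · intro h
    exact ⟨x, h, rfl⟩

/-- a normal subgroup which contains a nonscalar sign matrix contains `El2` -/
theorem lvl' (hn : 3 ≤ Fintype.card ι) (Γ : Subgroup (GL ι R)) (hΓ : El R ι ≤ Γ) (N : Subgroup Γ)
    (hN : N.Normal) (z : Γ) (hz : z ∈ N) (ε : ι → R) (hzε : z.1.1 = diagonal ε)
    (hε : ∀ a, ε a = 1 ∨ ε a = -1) (i j : ι) (hi : ε i = 1) (hj : ε j = -1) (hij : i ≠ j)
    (x : Γ) (hx : x.1 ∈ El2 R ι) : x ∈ N := by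
  let e : ι ≃ Fin (Fintype.card ι) := Fintype.equivFin ι
  let Γ' : Subgroup (GL (Fin (Fintype.card ι)) R) := Γ.map (rx e).toMonoidHom
  let f : Γ ≃* Γ' := (rx e).subgroupMap Γ
  have hf : ∀ y : Γ, (f y).1 = rx e y.1 := fun y => rfl
  have h1 : f x ∈ N.map f.toMonoidHom := by
    refine lvl hn Γ' ?_ (N.map f.toMonoidHom) (hN.map _ f.surjective) (f z) ⟨z, hz, rfl⟩
      (fun a => ε (e.symm a)) ?_ (fun a => hε _) (e i) (e j) ?_ ?_ (fun h => hij (e.injective h))
      (f x) ?_
    · rw [← rx_El e]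
      exact Subgroup.map_mono hΓ
    · rw [hf, rx_val, hzε]
      ext a b
      change diagonal ε (e.symm a) (e.symm b) = _
      rw [Matrix.diagonal_apply, Matrix.diagonal_apply]
      by_cases h : a = b
      · rw [if_pos h, if_pos (by rw [h])]
      · rw [if_neg h, if_neg fun h1 => h (e.symm.injective h1)]
    · rw [Equiv.symm_apply_apply, hi]
    · rw [Equiv.symm_apply_apply, hj]
    · rw [hf]
      exact (rx_El2_mem e _).2 hx
  obtain ⟨y, hy, hyx⟩ := h1
  have : y = x := f.injective hyx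
  rwa [← this]

/-- finite image -/
theorem finE' [Module.Finite ℤ R] (hn : 3 ≤ Fintype.card ι) {Q : Type} [Group Q]
    (Γ : Subgroup (GL ι R)) (hΓ : El R ι ≤ Γ) (f : Γ →* Q)
    (hf : ∀ x : Γ, x.1 ∈ El2 R ι → f x = 1) : Finite (((El R ι).subgroupOf Γ).map f) := by
  obtain ⟨m, hm⟩ : ∃ m, Fintype.card ι = m + 3 := ⟨Fintype.card ι - 3, by omega⟩
  let e : ι ≃ Fin (m + 3) := Fintype.equivFinOfCardEq hm
  let Γ' : Subgroup (GL (Fin (m + 3)) R) := Γ.map (rx e).toMonoidHom
  let g : Γ ≃* Γ' := (rx e).subgroupMap Γ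
  have hg : ∀ y : Γ, (g y).1 = rx e y.1 := fun y => rfl
  have h1 := finE Γ' (by
    rw [← rx_El e]
    exact Subgroup.map_mono hΓ) (f.comp g.symm.toMonoidHom) (by
    intro x hx
    apply hf
    rw [← rx_El2_mem e]
    have h2 : rx e (g.symm x).1 = x.1 := by rw [← hg, MulEquiv.apply_symm_apply]
    change rx e (g.symm x).1 ∈ _
    rw [h2]
    exact hx)
  have h2 : ((El R ι).subgroupOf Γ).map f ≤
      ((Eg R (m + 3)).subgroupOf Γ').map (f.comp g.symm.toMonoidHom) := by
    rintro _ ⟨x, hx, rfl⟩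
    refine ⟨g x, ?_, ?_⟩
    · change (g x).1 ∈ Eg R (m + 3)
      rw [hg]
      exact (rx_El_mem e _).2 hx
    · change f (g.symm (g x)) = f x
      rw [MulEquiv.symm_apply_apply]
  exact Finite.of_injective _ (Subgroup.inclusion_injective h2)

end

end Q23.ZB
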