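import Pool.Agent.Q23.ZB.Blk
import Pool.Agent.Q4.ZS.Eul2

/-!
# Actions of groups which contain block diagonal quaternion matrices
-/

set_option autoImplicit false
set_option linter.unusedSectionVars false

open Matrix
open scoped Manifold ContDiff

namespace Q23.ZB

open Module
open Q4.ZS (zq)
open Q4.ZI (Tri)

/-- the matrix `X` lies in the subgroup `D` of `Γ` -/
def Has {R ι : Type} [Ring R] [Fintype ι] [DecidableEq ι] {Γ : Subgroup (GL ι R)}
    (D : Subgroup Γ) (X : Matrix ι ι R) : Prop := ∃ x ∈ D, x.1.1 = X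

section

variable {R ι : Type} [Ring R] [Fintype ι] [DecidableEq ι]

/-- some nonscalar diagonal matrix with entries `1` and `-1` acts trivially -/
def NSc (Γ : Subgroup (GL ι R)) (M : Type) [MulAction Γ M] : Prop :=
  ∃ (z : Γ) (ε : ι → R), z.1.1 = diagonal ε ∧ (∀ a, ε a = 1 ∨ ε a = -1) ∧ (∃ a, ε a = 1) ∧
    (∃ b, ε b = -1) ∧ ∀ y : M, z • y = y

theorem fin_end' [Module.Finite ℤ R] (h20 : (2 : R) ≠ 0) (hn : 3 ≤ Fintype.card ι)
    (Γ : Subgroup (GL ι R)) (hΓ : El R ι ≤ Γ) (M : Type) [MulAction Γ M] (h : NSc Γ M) :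
    (∀ g : Γ, g.1 ∈ El2 R ι → ∀ y : M, g • y = y) ∧
      Finite (((El R ι).subgroupOf Γ).map (MulAction.toPermHom Γ M)) := by
  obtain ⟨z, ε, hzε, hε, ⟨a, ha⟩, ⟨b, hb⟩, hz⟩ := h
  have hab : a ≠ b := by
    rintro rfl
    have h1 : (1 : R) = -1 := ha.symm.trans hb
    apply h20
    rw [← one_add_one_eq_two]
    nth_rewrite 1 [h1]
    exact neg_add_cancel 1
  set N := (MulAction.toPermHom Γ M).ker with hN
  have hmem : ∀ g : Γ, g ∈ N ↔ ∀ y : M, g • y = y := by
    intro g
    rw [hN, MonoidHom.mem_ker]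
    constructor
    · intro h y
      exact congrArg (fun f : Equiv.Perm M => f y) h
    · intro h
      exact Equiv.ext h
  have h1 : ∀ g : Γ, g.1 ∈ El2 R ι → g ∈ N := fun g hg =>
    lvl' hn Γ hΓ N inferInstance z ((hmem z).2 hz) ε hzε hε a b ha hb hab g hg
  exact ⟨fun g hg => (hmem g).1 (h1 g hg), finE' hn Γ hΓ _ fun x hx => h1 x hx⟩

end

/-- small orbits -/
theorem partA {n : ℕ} (A : Type) [Group A] [Finite A] (k j : ℕ)
    (φ : (Fin n → QuaternionGroup 2) →* A)
    (E M : Type) [NormedAddCommGroup E] [NormedSpace ℝ E] [FiniteDimensional ℝ E]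
    (hE : finrank ℝ E + 2 * k + 4 * j < 4 * n)
    [TopologicalSpace M] [T2Space M] [ConnectedSpace M] [ChartedSpace E M]
    [IsManifold 𝓘(ℝ, E) 1 M] [MulAction A M]
    (hsm : ∀ g : A, ContMDiff 𝓘(ℝ, E) 𝓘(ℝ, E) 1 (fun y : M => g • y))
    (x : M) (hx : Nat.card (MulAction.orbit A x) ≤ 2 ^ k) :
    ∃ S0 : Subgroup (Fin n → ℤˣ), 2 ^ (j + 1) ≤ Nat.card S0 ∧
      ∀ ε ∈ S0, ∀ y : M, φ (zq ε) • y = y := by
  let S : Subgroup (Fin n → QuaternionGroup 2) := (MulAction.stabilizer A x).comap φ
  have hS : S.index ≤ 2 ^ k := by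
    refine le_trans ?_ hx
    have h1 : (MulAction.stabilizer A x).index = Nat.card (MulAction.orbit A x) :=
      MulAction.index_stabilizer _ _
    rw [← h1]
    change ((MulAction.stabilizer A x).comap φ).index ≤ _
    rw [Subgroup.index_comap]
    have : (MulAction.stabilizer A x).FiniteIndex := inferInstance
    rw [← Subgroup.relIndex_top_right (MulAction.stabilizer A x)]
    refine Subgroup.relIndex_le_of_le_right le_top ?_
    rw [Subgroup.relIndex_top_right]
    exact this.index_ne_zero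
  have hSx : ∀ s : S, φ s.1 • x = x := fun s => s.2
  let act : MulAction S M :=
    { smul := fun s y => φ s.1 • y
      one_smul := fun y => by
        change φ 1 • y = y
        rw [map_one, one_smul]
      mul_smul := fun s t y => by
        change φ (s.1 * t.1) • y = φ s.1 • φ t.1 • y
        rw [map_mul, mul_smul] }
  obtain ⟨ρ, hρ⟩ := Q4.ZI.tLoc E M S (fun s => hsm (φ s.1)) x hSx
  obtain ⟨S0, h1, h2⟩ := kerCard n k j S hS E ρ hE
  refine ⟨S0, h1, fun ε hε y => ?_⟩
  obtain ⟨h3, h4⟩ := h2 ε hε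
  exact hρ ⟨zq ε, h3⟩ h4 y

section

variable {R : Type} [Ring R] {m n e : ℕ}

theorem units_cast (u : ℤˣ) : ((u : ℤ) : R) = 1 ∨ ((u : ℤ) : R) = -1 := by
  rcases Int.units_eq_one_or u with rfl | rfl
  · left; simp
  · right; simp

theorem main [Module.Finite ℤ R] (h2 : (2 : R) ≠ 0) (hm : 0 < m) (hN : 3 ≤ m * n + e)
    (I J : GL (Fin m) R) (hI : I * I = -1) (hJ : J * J = -1) (hIJ : I * J = -(J * I))
    (Γ : Subgroup (GL ((Fin m × Fin n) ⊕ Fin e) R)) (hΓ : El R ((Fin m × Fin n) ⊕ Fin e) ≤ Γ)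
    (D : Subgroup Γ) [Finite D] (hD : IsPGroup 2 D)
    (hQ : ∀ h : Fin n → GL (Fin m) R, (∀ i, h i ∈ Subgroup.closure {I, J}) →
      Has D (fromBlocks (blockDiagonal fun i => (h i).1) 0 0 1)) (k : ℕ)
    (E M : Type) [NormedAddCommGroup E] [NormedSpace ℝ E] [FiniteDimensional ℝ E]
    (hdim : (0 < e ∧ finrank ℝ E + 2 * k < 4 * n) ∨ finrank ℝ E + 2 * k + 4 < 4 * n ∨
      (k = 0 ∧ 3 ≤ n ∧ finrank ℝ E < 4 * n ∧ ∃ τ : Fin n → Fin n,
        (∀ i, τ (τ i) = i ∧ τ i ≠ i) ∧ ∀ i, Has D (fromBlocks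
          (Equiv.Perm.permMatrix R (Equiv.prodCongr (Equiv.refl (Fin m)) (Equiv.swap i (τ i))))
          0 0 1)) ∨
      (k = 0 ∧ finrank ℝ E < 4 * n + 2 ∧ ∃ a b : Fin e, a ≠ b ∧
        Has D (fromBlocks 1 0 0 (diagonal (Function.update 1 a (-1)))) ∧
        Has D (fromBlocks 1 0 0 (Equiv.Perm.permMatrix R (Equiv.swap a b)))))
    [TopologicalSpace M] [T2Space M] [ConnectedSpace M] [ChartedSpace E M]
    [IsManifold 𝓘(ℝ, E) 1 M] [MulAction Γ M]
    (hsm : ∀ g : Γ, ContMDiff 𝓘(ℝ, E) 𝓘(ℝ, E) 1 (fun y : M => g • y))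
    (h : (∃ x : M, Nat.card (MulAction.orbit D x) ≤ 2 ^ k) ∨
      ∃ T : Tri D M, ¬ (2 : ℤ) ^ (k + 1) ∣ T.chi) :
    (∀ g : Γ, g.1 ∈ El2 R ((Fin m × Fin n) ⊕ Fin e) → ∀ y : M, g • y = y) ∧
      Finite (((El R ((Fin m × Fin n) ⊕ Fin e)).subgroupOf Γ).map (MulAction.toPermHom Γ M)) := by
  have hcard : 3 ≤ Fintype.card ((Fin m × Fin n) ⊕ Fin e) := by
    rw [Fintype.card_sum, Fintype.card_prod, Fintype.card_fin, Fintype.card_fin, Fintype.card_fin]
    exact hN
  refine fin_end' h2 hcard Γ hΓ M ?_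
  -- the homomorphism
  have hqb : ∀ q : Fin n → QuaternionGroup 2, ∃ x ∈ D, x.1 = qb (e := e) I J hI hJ hIJ q := by
    intro q
    obtain ⟨x, hx, hx1⟩ := hQ (fun i => qm I J hI hJ hIJ (q i)) fun i => qh_mem _ _ _ _ _ _
    exact ⟨x, hx, Units.ext (by rw [hx1, qb_val])⟩
  let φ0 : (Fin n → QuaternionGroup 2) →* Γ := (qb (e := e) I J hI hJ hIJ).codRestrict Γ (by
    intro q
    obtain ⟨x, -, hx⟩ := hqb q
    rw [← hx]
    exact x.2)
  let φ : (Fin n → QuaternionGroup 2) →* D := φ0.codRestrict D (by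
    intro q
    obtain ⟨x, hx1, hx⟩ := hqb q
    have h1 : φ0 q = x := Subtype.ext hx.symm
    rw [h1]
    exact hx1)
  have hφ : ∀ q, (φ q).1.1 = qb (e := e) I J hI hJ hIJ q := fun q => rfl
  have hφs : ∀ ε : Fin n → ℤˣ, (φ (zq ε)).1.1.1 =
      diagonal (Sum.elim (fun p => ((ε p.2 : ℤ) : R)) fun _ => 1) := fun ε => by
    rw [hφ, qb_sign]
  have hφd : ∀ ε : Fin n → ℤˣ, ∀ a : (Fin m × Fin n) ⊕ Fin e,
      (Sum.elim (fun p => ((ε p.2 : ℤ) : R)) (fun _ => 1) : _ → R) a = 1 ∨
      (Sum.elim (fun p => ((ε p.2 : ℤ) : R)) (fun _ => 1) : _ → R) a = -1 := by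
    intro ε a
    rcases a with a | a
    · exact units_cast (ε a.2)
    · exact Or.inl rfl
  -- two ways to finish
  have fin1 : ∀ ε : Fin n → ℤˣ, (∃ i j, ε i ≠ ε j) → (∀ y : M, (φ (zq ε)).1 • y = y) →
      NSc Γ M := by
    rintro ε ⟨i, j, hij⟩ h1
    obtain ⟨i, j, hi, hj⟩ : ∃ i j, ε i = 1 ∧ ε j = -1 := by
      rcases Int.units_eq_one_or (ε i) with hi | hi <;> rcases Int.units_eq_one_or (ε j) with hj | hj
      · exact absurd (hi.trans hj.symm) hij
      · exact ⟨i, j, hi, hj⟩
      · exact ⟨j, i, hj, hi⟩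
      · exact absurd (hi.trans hj.symm) hij
    refine ⟨(φ (zq ε)).1, _, hφs ε, hφd ε, ⟨Sum.inl (⟨0, hm⟩, i), ?_⟩,
      ⟨Sum.inl (⟨0, hm⟩, j), ?_⟩, h1⟩
    · change ((ε i : ℤ) : R) = 1
      rw [hi]; simp
    · change ((ε j : ℤ) : R) = -1
      rw [hj]; simp
  have fin2 : 0 < e → ∀ ε : Fin n → ℤˣ, ε ≠ 1 → (∀ y : M, (φ (zq ε)).1 • y = y) → NSc Γ M := by
    intro he ε hε h1
    obtain ⟨j, hj⟩ : ∃ j, ε j ≠ 1 := Function.ne_iff.1 hε
    refine ⟨(φ (zq ε)).1, _, hφs ε, hφd ε, ⟨Sum.inr ⟨0, he⟩, rfl⟩,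
      ⟨Sum.inl (⟨0, hm⟩, j), ?_⟩, h1⟩
    change ((ε j : ℤ) : R) = -1
    rw [(Int.units_eq_one_or (ε j)).resolve_left hj]; simp
  -- the point with a small orbit
  obtain ⟨x, hx⟩ : ∃ x : M, Nat.card (MulAction.orbit D x) ≤ 2 ^ k := by
    rcases h with ⟨x, hx⟩ | ⟨T, hT⟩
    · exact ⟨x, hx⟩
    · have : Fact (Nat.Prime 2) := ⟨Nat.prime_two⟩
      exact Q4.ZS.tEul2 2 D M hD T k (by exact_mod_cast hT)
  have hsD : ∀ g : D, ContMDiff 𝓘(ℝ, E) 𝓘(ℝ, E) 1 (fun y : M => g • y) := fun g => hsm g.1
  rcases hdim with ⟨he, hd⟩ | hd | ⟨hk, hn3, hd, τ, hτ, hT⟩ | ⟨hk, hd, a, b, hab, hA, hB⟩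
  · obtain ⟨S0, h3, h4⟩ := partA D k 0 φ E M (by omega) hsD x hx
    obtain ⟨ε, hε, hε1⟩ := nontriv S0 h3
    exact fin2 he ε hε1 fun y => h4 ε hε y
  · obtain ⟨S0, h3, h4⟩ := partA D k 1 φ E M (by omega) hsD x hx
    obtain ⟨ε, hε, hij⟩ : ∃ ε ∈ S0, ∃ i j, ε i ≠ ε j := by
      by_contra hcon
      push Not at hcon
      have hn : 0 < n := by omega
      have h5 : Function.Injective (fun ε : S0 => ε.1 ⟨0, hn⟩) := by
        intro ε ε' h6
        apply Subtype.ext
        funext i
        rw [hcon ε.1 ε.2 i ⟨0, hn⟩, hcon ε'.1 ε'.2 i ⟨0, hn⟩]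
        exact h6
      have h6 := Nat.card_le_card_of_injective _ h5
      rw [Nat.card_eq_fintype_card (α := ℤˣ), Fintype.card_units_int] at h6
      omega
    exact fin1 ε hij fun y => h4 ε hε y
  all_goals
    subst hk
    have hxf : ∀ g : D, g • x = x := by
      intro g
      rw [pow_zero] at hx
      have h5 : Subsingleton (MulAction.orbit D x) := by
        have : Finite (MulAction.orbit D x) := (Set.finite_range fun g : D => g • x).to_subtype
        exact Finite.card_le_one_iff_subsingleton.1 hx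
      have h6 := h5.elim ⟨g • x, ⟨g, rfl⟩⟩ ⟨x, MulAction.mem_orbit_self x⟩
      exact congrArg Subtype.val h6
    obtain ⟨ρ, hρ⟩ := Q4.ZI.tLoc E M D hsD x hxf
    have hρm : ∀ (g g' : D) (v : E), ρ (g * g') v = ρ g (ρ g' v) := by
      intro g g' v
      rw [map_mul]
      rfl
  · choose t ht ht1 using hT
    have hblk : ∀ i, fromBlocks (Equiv.Perm.permMatrix R (Equiv.prodCongr (Equiv.refl (Fin m))
        (Equiv.swap i (τ i)))) 0 0 1 =
        Equiv.Perm.permMatrix R (Equiv.sumCongr (Equiv.prodCongr (Equiv.refl (Fin m))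
          (Equiv.swap i (τ i))) (Equiv.refl (Fin e))) := by
      intro i
      ext p q
      rcases p with p | p <;> rcases q with q | q
      · rw [fromBlocks_apply₁₁]
        simp [PEquiv.toMatrix_apply]
      · rw [fromBlocks_apply₁₂]
        simp [PEquiv.toMatrix_apply]
      · rw [fromBlocks_apply₂₁]
        simp [PEquiv.toMatrix_apply]
      · rw [fromBlocks_apply₂₂]
        simp [PEquiv.toMatrix_apply, Matrix.one_apply]
    have hinv : ∀ i, ∀ p : (Fin m × Fin n) ⊕ Fin e,
        (Equiv.sumCongr (Equiv.prodCongr (Equiv.refl (Fin m)) (Equiv.swap i (τ i)))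
          (Equiv.refl (Fin e))) ((Equiv.sumCongr (Equiv.prodCongr (Equiv.refl (Fin m))
            (Equiv.swap i (τ i))) (Equiv.refl (Fin e))) p) = p := by
      intro i p
      rcases p with ⟨p1, p2⟩ | p <;> simp
    obtain ⟨ε, hij, hε⟩ := rblock hn3 τ (fun i => (hτ i).1) (fun i => (hτ i).2) (ρ.comp φ)
      (fun i => ρ ⟨t i, ht i⟩) (by
        intro i v
        rw [← hρm]
        have h5 : (⟨t i, ht i⟩ * ⟨t i, ht i⟩ : D) = 1 := by
          apply Subtype.ext
          apply Subtype.ext
          apply Units.ext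
          change (t i).1.1 * (t i).1.1 = 1
          rw [ht1, hblk]
          exact perm_perm _ (hinv i)
        rw [h5, map_one]
        rfl) (by
        intro i ε v
        change ρ ⟨t i, ht i⟩ (ρ (φ (zq ε)) v) =
          ρ (φ (zq (ε ∘ Equiv.swap i (τ i)))) (ρ ⟨t i, ht i⟩ v)
        rw [← hρm, ← hρm]
        congr 2
        apply Subtype.ext
        apply Subtype.ext
        apply Units.ext
        change (t i).1.1 * (φ (zq ε)).1.1.1 =
          (φ (zq (ε ∘ Equiv.swap i (τ i)))).1.1.1 * (t i).1.1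
        rw [ht1, hblk, hφs, hφs, perm_diag]
        congr 2
        funext p
        rcases p with p | p <;> rfl) hd
    exact fin1 ε hij fun y => hρ (φ (zq ε)) hε y
  · obtain ⟨s, hs, hs1⟩ := hA
    obtain ⟨t, ht, ht1⟩ := hB
    have he : 0 < e := Fin.pos a
    have hblk : fromBlocks 1 0 0 (Equiv.Perm.permMatrix R (Equiv.swap a b)) =
        Equiv.Perm.permMatrix R
          (Equiv.sumCongr (Equiv.refl (Fin m × Fin n)) (Equiv.swap a b)) := by
      ext p q
      rcases p with p | p <;> rcases q with q | q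
      · rw [fromBlocks_apply₁₁]
        simp [PEquiv.toMatrix_apply, Matrix.one_apply, -Equiv.Perm.sumCongr_refl_swap]
      · rw [fromBlocks_apply₁₂]
        simp [PEquiv.toMatrix_apply, -Equiv.Perm.sumCongr_refl_swap]
      · rw [fromBlocks_apply₂₁]
        simp [PEquiv.toMatrix_apply, -Equiv.Perm.sumCongr_refl_swap]
      · rw [fromBlocks_apply₂₂]
        simp [PEquiv.toMatrix_apply, -Equiv.Perm.sumCongr_refl_swap]
    have hblk2 : (fromBlocks 1 0 0 (diagonal (Function.update 1 a (-1))) :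
        Matrix ((Fin m × Fin n) ⊕ Fin e) ((Fin m × Fin n) ⊕ Fin e) R) =
        diagonal (Sum.elim 1 (Function.update 1 a (-1))) := by
      rw [← Matrix.diagonal_one, fromBlocks_diagonal]
      rfl
    set σ : Equiv.Perm ((Fin m × Fin n) ⊕ Fin e) :=
      Equiv.sumCongr (Equiv.refl (Fin m × Fin n)) (Equiv.swap a b) with hσ
    have hσσ : ∀ p, σ (σ p) = p := by
      intro p
      rcases p with p | p
      · rfl
      · exact congrArg Sum.inr (Equiv.swap_apply_self a b p)
    rw [hblk] at ht1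
    rw [hblk2] at hs1
    have hd2 : (Sum.elim 1 (Function.update 1 a (-1)) : (Fin m × Fin n) ⊕ Fin e → R) ∘ σ =
        (Sum.elim 1 (Function.update 1 b (-1)) : (Fin m × Fin n) ⊕ Fin e → R) := by
      funext p
      rcases p with p | p
      · rfl
      · change (Function.update 1 a (-1) : Fin e → R) (Equiv.swap a b p) =
          (Function.update 1 b (-1) : Fin e → R) p
        by_cases hpa : p = a
        · rw [hpa, Equiv.swap_apply_left, Function.update_of_ne hab.symm,
            Function.update_of_ne hab]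
          rfl
        · by_cases hpb : p = b
          · rw [hpb, Equiv.swap_apply_right, Function.update_self, Function.update_self]
          · rw [Equiv.swap_apply_of_ne_of_ne hpa hpb, Function.update_of_ne hpa,
              Function.update_of_ne hpb]
    let S : D := ⟨s, hs⟩
    let T : D := ⟨t, ht⟩
    have hTT : T * T = 1 := by
      apply Subtype.ext
      apply Subtype.ext
      apply Units.ext
      change t.1.1 * t.1.1 = 1
      rw [ht1]
      exact perm_perm σ hσσ
    let S' : D := T * S * T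
    have hS' : S'.1.1.1 = diagonal (Sum.elim 1 (Function.update 1 b (-1))) := by
      change t.1.1 * s.1.1 * t.1.1 = _
      rw [ht1, hs1, perm_diag, hd2, mul_assoc, perm_perm σ hσσ, mul_one]
    have hup : ∀ c : Fin e, (fun p => (Sum.elim 1 (Function.update 1 c (-1)) :
        (Fin m × Fin n) ⊕ Fin e → R) p * (Sum.elim 1 (Function.update 1 c (-1)) :
        (Fin m × Fin n) ⊕ Fin e → R) p) = 1 := by
      intro c
      funext p
      rcases p with p | p
      · exact one_mul 1
      · change (Function.update 1 c (-1) : Fin e → R) p * (Function.update 1 c (-1) : Fin e → R) p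
          = 1
        by_cases hp : p = c
        · rw [hp, Function.update_self, neg_mul_neg, one_mul]
        · rw [Function.update_of_ne hp]
          exact one_mul 1
    have hSS : S * S = 1 := by
      apply Subtype.ext
      apply Subtype.ext
      apply Units.ext
      change s.1.1 * s.1.1 = 1
      rw [hs1, Matrix.diagonal_mul_diagonal, hup, ← Matrix.diagonal_one]
      rfl
    have hcd : ∀ (c : Fin e) (q : Fin n → QuaternionGroup 2),
        diagonal (Sum.elim 1 (Function.update 1 c (-1))) * (φ q).1.1.1 =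
        (φ q).1.1.1 * diagonal (Sum.elim 1 (Function.update 1 c (-1))) := by
      intro c q
      have h5 : (diagonal (Sum.elim 1 (Function.update 1 c (-1))) :
          Matrix ((Fin m × Fin n) ⊕ Fin e) ((Fin m × Fin n) ⊕ Fin e) R) =
          fromBlocks 1 0 0 (diagonal (Function.update 1 c (-1))) := by
        rw [← Matrix.diagonal_one, fromBlocks_diagonal]
        rfl
      rw [hφ, qb_val, h5, fromBlocks_multiply, fromBlocks_multiply]
      simp only [Matrix.mul_zero, Matrix.zero_mul, add_zero, zero_add, mul_one, one_mul]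
    have hcS : ∀ q, S * φ q = φ q * S := by
      intro q
      apply Subtype.ext
      apply Subtype.ext
      apply Units.ext
      change s.1.1 * (φ q).1.1.1 = (φ q).1.1.1 * s.1.1
      rw [hs1, hcd]
    have hcS' : ∀ q, S' * φ q = φ q * S' := by
      intro q
      apply Subtype.ext
      apply Subtype.ext
      apply Units.ext
      change S'.1.1.1 * (φ q).1.1.1 = (φ q).1.1.1 * S'.1.1.1
      rw [hS', hcd]
    have hSS'c : S * S' = S' * S := by
      apply Subtype.ext
      apply Subtype.ext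
      apply Units.ext
      change s.1.1 * S'.1.1.1 = S'.1.1.1 * s.1.1
      rw [hS', hs1, Matrix.diagonal_mul_diagonal, Matrix.diagonal_mul_diagonal]
      congr 1
      funext p
      rcases p with p | p
      · rfl
      · change (Function.update 1 a (-1) : Fin e → R) p * (Function.update 1 b (-1) : Fin e → R) p
          = (Function.update 1 b (-1) : Fin e → R) p * (Function.update 1 a (-1) : Fin e → R) p
        by_cases hp : p = a
        · rw [hp, Function.update_self, Function.update_of_ne hab]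
          simp
        · rw [Function.update_of_ne hp]
          simp
    have hcT : ∀ ε : Fin n → ℤˣ, T * φ (zq ε) = φ (zq ε) * T := by
      intro ε
      apply Subtype.ext
      apply Subtype.ext
      apply Units.ext
      change t.1.1 * (φ (zq ε)).1.1.1 = (φ (zq ε)).1.1.1 * t.1.1
      rw [hφs, ht1, perm_diag]
      congr 2
      funext p
      rcases p with p | p <;> rfl
    have hTS : T * S = S' * T := by
      change T * S = T * S * T * T
      rw [mul_assoc (T * S), hTT, mul_one]
    have hS'S' : S' * S' = 1 := by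
      change T * S * T * (T * S * T) = 1
      have h5 : T * S * T * (T * S * T) = T * S * (T * T) * S * T := by
        simp only [mul_assoc]
      rw [h5, hTT, mul_one, mul_assoc T S S, hSS, mul_one, hTT]
    have hact : ∀ (g g' h h' : D), g * g' = h * h' → ∀ v, ρ g (ρ g' v) = ρ h (ρ h' v) := by
      intro g g' h h' e1 v
      rw [← hρm, ← hρm, e1]
    have hact1 : ∀ (g g' : D), g * g' = 1 → ∀ v, ρ g (ρ g' v) = v := by
      intro g g' e1 v
      rw [← hρm, e1, map_one]
      rfl
    rcases rswap (ρ.comp φ) (ρ S) (ρ S') (ρ T) (hact1 _ _ hSS) (hact1 _ _ hS'S')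
      (hact _ _ _ _ hSS'c) (fun q => hact _ _ _ _ (hcS q)) (fun q => hact _ _ _ _ (hcS' q))
      (fun ε => hact _ _ _ _ (hcT ε)) (hact1 _ _ hTT) (hact _ _ _ _ hTS) (by omega) with h5 | h5
    · have h6 : ρ (S * S') = 1 := by
        ext v
        rw [hρm]
        exact h5 v
      have h7 := hρ (S * S') h6
      obtain ⟨c, hca, hcb⟩ : ∃ c : (Fin m × Fin n) ⊕ Fin e, c ≠ Sum.inr a ∧ c ≠ Sum.inr b := by
        have h8 : ({Sum.inr a, Sum.inr b} : Finset ((Fin m × Fin n) ⊕ Fin e)).card <
            (Finset.univ : Finset ((Fin m × Fin n) ⊕ Fin e)).card := by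
          rw [Finset.card_univ]
          exact lt_of_le_of_lt Finset.card_le_two (by omega)
        obtain ⟨w, -, hw⟩ := Finset.exists_mem_notMem_of_card_lt_card h8
        simp only [Finset.mem_insert, Finset.mem_singleton, not_or] at hw
        exact ⟨w, hw⟩
      refine ⟨(S * S').1, fun p => (Sum.elim 1 (Function.update 1 a (-1)) :
        (Fin m × Fin n) ⊕ Fin e → R) p * (Sum.elim 1 (Function.update 1 b (-1)) :
        (Fin m × Fin n) ⊕ Fin e → R) p, ?_, ?_, ⟨c, ?_⟩, ⟨Sum.inr a, ?_⟩, fun y => h7 y⟩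
      · change s.1.1 * S'.1.1.1 = _
        rw [hs1, hS', Matrix.diagonal_mul_diagonal]
      · intro p
        rcases p with p | p
        · exact Or.inl (one_mul 1)
        · change (Function.update 1 a (-1) : Fin e → R) p *
            (Function.update 1 b (-1) : Fin e → R) p = 1 ∨
            (Function.update 1 a (-1) : Fin e → R) p *
            (Function.update 1 b (-1) : Fin e → R) p = -1
          by_cases hpa : p = a
          · rw [hpa, Function.update_self, Function.update_of_ne hab]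
            right
            exact mul_one _
          · rw [Function.update_of_ne hpa]
            by_cases hpb : p = b
            · rw [hpb, Function.update_self]
              right
              exact one_mul _
            · rw [Function.update_of_ne hpb]
              left
              exact one_mul _
      · rcases c with c | c
        · exact one_mul 1
        · change (Function.update 1 a (-1) : Fin e → R) c *
            (Function.update 1 b (-1) : Fin e → R) c = 1
          rw [Function.update_of_ne (fun h => hca (by rw [h])),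
            Function.update_of_ne (fun h => hcb (by rw [h]))]
          exact one_mul _
      · change (Function.update 1 a (-1) : Fin e → R) a *
          (Function.update 1 b (-1) : Fin e → R) a = -1
        rw [Function.update_self, Function.update_of_ne hab]
        exact mul_one _
    · obtain ⟨ε, hε1, hε⟩ := h5
      exact fin2 he ε hε1 fun y => hρ (φ (zq ε)) hε y

end

end Q23.ZB
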