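import Pool.Agent.Q150.ZS.Rep2
import Pool.Agent.Q23.ZQ.Rep

/-!
# Real representations of groups of block diagonal quaternion matrices
-/

set_option autoImplicit false
set_option linter.unusedSectionVars false

namespace Q23.ZB

open Module Q150.ZS
open Q4.ZS (zq)

theorem arith2 {n k j c1 c2 r M e e1 k1 : ℕ} (h1 : 8 ^ n ≤ e * 2 ^ k) (h2 : e ≤ e1 * 2 ^ c2)
    (h3 : e1 ≤ M * k1 ^ 2) (h4 : k1 * 2 ^ (c1 + c2) ≤ M) (h5 : M ≤ 2 ^ n)
    (h7 : 4 * r + 4 * j + 2 * k < 4 * n + 3 * c1 + 2 * c2) : 2 ^ (r + j) < M := by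
  by_contra hlt
  have h8 : e * 2 ^ (2 * c1 + c2) ≤ M ^ 3 := by
    calc e * 2 ^ (2 * c1 + c2) ≤ (M * k1 ^ 2 * 2 ^ c2) * 2 ^ (2 * c1 + c2) :=
          Nat.mul_le_mul_right _ (h2.trans (Nat.mul_le_mul_right _ h3))
      _ = M * (k1 * 2 ^ (c1 + c2)) ^ 2 := by
          rw [mul_pow, ← pow_mul, mul_assoc (M * k1 ^ 2), ← pow_add,
            show c2 + (2 * c1 + c2) = (c1 + c2) * 2 by ring, mul_assoc]
      _ ≤ M * M ^ 2 := Nat.mul_le_mul_left _ (Nat.pow_le_pow_left h4 2)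
      _ = M ^ 3 := by ring
  have h9 : 2 ^ (3 * n + 2 * c1 + c2) ≤ M ^ 3 * 2 ^ k := by
    calc 2 ^ (3 * n + 2 * c1 + c2) = 8 ^ n * 2 ^ (2 * c1 + c2) := by
          rw [show (8 : ℕ) = 2 ^ 3 by norm_num, ← pow_mul, ← pow_add, add_assoc]
      _ ≤ (e * 2 ^ k) * 2 ^ (2 * c1 + c2) := Nat.mul_le_mul_right _ h1
      _ = (e * 2 ^ (2 * c1 + c2)) * 2 ^ k := by ring
      _ ≤ M ^ 3 * 2 ^ k := Nat.mul_le_mul_right _ h8
  have h10 : 2 ^ (6 * n + 4 * c1 + 2 * c2) ≤ 2 ^ (4 * (r + j) + 2 * n + 2 * k) := by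
    calc 2 ^ (6 * n + 4 * c1 + 2 * c2) = (2 ^ (3 * n + 2 * c1 + c2)) ^ 2 := by
          rw [← pow_mul]
          congr 1
          ring
      _ ≤ (M ^ 3 * 2 ^ k) ^ 2 := Nat.pow_le_pow_left h9 2
      _ = M ^ 4 * M ^ 2 * 2 ^ (2 * k) := by
          rw [mul_pow, ← pow_mul, ← pow_mul, ← pow_add, mul_comm k 2]
      _ ≤ (2 ^ (r + j)) ^ 4 * (2 ^ n) ^ 2 * 2 ^ (2 * k) := by
          refine Nat.mul_le_mul_right _ (Nat.mul_le_mul ?_ ?_)
          · exact Nat.pow_le_pow_left (not_lt.1 hlt) 4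
          · exact Nat.pow_le_pow_left h5 2
      _ = 2 ^ (4 * (r + j) + 2 * n + 2 * k) := by
          rw [← pow_mul, ← pow_mul, ← pow_add, ← pow_add, mul_comm (r + j) 4, mul_comm n 2]
  have h11 : 6 * n + 4 * c1 + 2 * c2 ≤ 4 * (r + j) + 2 * n + 2 * k :=
    (Nat.pow_le_pow_iff_right (by norm_num)).1 h10
  omega

/-- a version of the claim in the file `Q150.ZS.Rep2` with better constants -/
theorem claim2 {A : Type} [Group A] [Finite A] (Z : Subgroup A) (hZc : ∀ z ∈ Z, ∀ a, z * a = a * z)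
    (hZ2 : ∀ z ∈ Z, z * z = 1) (hsq : ∀ a : A, a * a ∈ Z) (d : ℕ) :
    ∀ (V : Type) [AddCommGroup V] [Module ℝ V] [FiniteDimensional ℝ V], finrank ℝ V = d →
    ∀ (ρ : A →* (V →ₗ[ℝ] V)) (Ω0 K0 E0 : Subgroup A), Ω0 ≤ K0 → K0 ≤ Z → (∀ x ∈ E0, x * x ∈ K0) →
    ∃ (Ω1 K1 E1 : Subgroup A) (r c1 c2 : ℕ), Ω1 ≤ Ω0 ∧ Ω1 ≤ K1 ∧ K1 ≤ K0 ∧ E1 ≤ E0 ∧
      (∀ x ∈ E1, x * x ∈ K1) ∧ (∀ g ∈ Ω1, ρ g = 1) ∧ Nat.card Ω0 ≤ Nat.card Ω1 * 2 ^ r ∧
      Nat.card K1 * 2 ^ (c1 + c2) ≤ Nat.card K0 ∧ Nat.card E0 ≤ Nat.card E1 * 2 ^ c2 ∧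
      4 * r ≤ finrank ℝ V + 3 * c1 + 2 * c2 := by
  induction d using Nat.strong_induction_on with
  | _ d ih =>
    intro V _ _ _ hd ρ Ω0 K0 E0 hΩK hKZ hE
    by_cases htriv : ∀ g ∈ Ω0, ρ g = 1
    · exact ⟨Ω0, K0, E0, 0, 0, 0, le_rfl, hΩK, le_rfl, le_rfl, hE, htriv, by simp, by simp,
        by simp, by simp⟩
    · push Not at htriv
      obtain ⟨g0, hg0, hg0n⟩ := htriv
      let U := LinearMap.range (ρ g0 - 1)
      have hU : U ≠ ⊥ := by
        intro h
        exact hg0n (sub_eq_zero.1 (LinearMap.range_eq_bot.1 h))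
      have hUi : Inv ρ U := by
        rintro a _ ⟨v, rfl⟩
        refine ⟨ρ a v, ?_⟩
        change ρ g0 (ρ a v) - ρ a v = ρ a (ρ g0 v - v)
        have h3 : ρ g0 * ρ a = ρ a * ρ g0 := by
          rw [← map_mul, hZc g0 (hKZ (hΩK hg0)), map_mul]
        have h4 : ρ g0 (ρ a v) = ρ a (ρ g0 v) := LinearMap.congr_fun h3 v
        rw [map_sub, h4]
      obtain ⟨W, hWU, hW0, hWi, hmin⟩ := exists_min ρ U hU hUi
      have hsign : ∀ z ∈ Z, res ρ W hWi z = 1 ∨ res ρ W hWi z = -1 := fun z hz =>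
        sign ρ W hWi hmin (hZc z hz) (hZ2 z hz)
      have hnt : Nontrivial W := Submodule.nontrivial_iff_ne_bot.2 hW0
      have hg0W : g0 ∉ KerW ρ W hWi := by
        intro hmem
        obtain ⟨w0, hw0W, hw0⟩ := Submodule.exists_mem_ne_zero_of_ne_bot hW0
        have h1 : ρ g0 w0 = w0 := congrArg Subtype.val (LinearMap.congr_fun hmem ⟨w0, hw0W⟩)
        obtain ⟨u, hu⟩ := hWU hw0W
        have hu' : ρ g0 u - u = w0 := hu
        have h2 : ρ g0 (ρ g0 u) = u := by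
          have h4 : ρ g0 * ρ g0 = 1 := by rw [← map_mul, hZ2 g0 (hKZ (hΩK hg0)), map_one]
          exact LinearMap.congr_fun h4 u
        have h3 : ρ g0 w0 = -w0 := by
          rw [← hu', map_sub, h2, neg_sub]
        rw [h1] at h3
        have h4 : (2 : ℝ) • w0 = 0 := by
          rw [two_smul]
          nth_rewrite 2 [h3]
          exact add_neg_cancel w0
        exact hw0 ((smul_eq_zero.1 h4).resolve_left two_ne_zero)
      have hP2 : ∀ x y, x ∈ Ω0 → y ∈ Ω0 → x ∉ KerW ρ W hWi → y ∉ KerW ρ W hWi →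
          x⁻¹ * y ∈ KerW ρ W hWi := by
        intro x y hx hy hxk hyk
        have h1 := (hsign x (hKZ (hΩK hx))).resolve_left hxk
        have h2 := (hsign y (hKZ (hΩK hy))).resolve_left hyk
        have h3 : x⁻¹ = x := inv_eq_of_mul_eq_one_left (hZ2 x (hKZ (hΩK hx)))
        change res ρ W hWi (x⁻¹ * y) = 1
        rw [h3, map_mul, h1, h2]
        exact neg_mul_neg_one_one
      have hΩ0' := half (KerW ρ W hWi) Ω0 hP2
      have hfr : finrank ℝ (V ⧸ W) + finrank ℝ W = finrank ℝ V :=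
        Submodule.finrank_quotient_add_finrank W
      have hWpos : 0 < finrank ℝ W := Module.finrank_pos
      -- lifting triviality
      have hlift : ∀ g ∈ Ω0 ⊓ KerW ρ W hWi, quo ρ W hWi g = 1 → ρ g = 1 := by
        intro g hg hq
        ext v
        have h2 : W.mkQ (ρ g v) = W.mkQ v := LinearMap.congr_fun hq (W.mkQ v)
        have h3 : ρ g v - v ∈ W := by
          rw [← Submodule.ker_mkQ W, LinearMap.mem_ker, map_sub, h2, sub_self]
        have h4 : ρ g (ρ g v - v) = ρ g v - v :=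
          congrArg Subtype.val (LinearMap.congr_fun hg.2 ⟨_, h3⟩)
        have h5 : ρ g (ρ g v) = v := by
          have h6 : ρ g * ρ g = 1 := by rw [← map_mul, hZ2 g (hKZ (hΩK hg.1)), map_one]
          exact LinearMap.congr_fun h6 v
        rw [map_sub, h5] at h4
        have h7 : (2 : ℝ) • (ρ g v - v) = 0 := by
          linear_combination (norm := module) -h4
        exact sub_eq_zero.1 ((smul_eq_zero.1 h7).resolve_left two_ne_zero)
      have hK0' := half' (KerW ρ W hWi) K0 (hΩK hg0) hg0W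
      by_cases hW4 : 4 ≤ finrank ℝ W
      · obtain ⟨Ω1, K1, E1, r, c1, c2, h1, h2, h3, h4, h5, h6, h7, h8, h9, h10⟩ :=
          ih (finrank ℝ (V ⧸ W)) (by omega) (V ⧸ W) rfl (quo ρ W hWi) (Ω0 ⊓ KerW ρ W hWi) K0 E0
            (inf_le_left.trans hΩK) hKZ hE
        refine ⟨Ω1, K1, E1, r + 1, c1, c2, h1.trans inf_le_left, h2, h3, h4, h5,
          fun g hg => hlift g (h1 hg) (h6 g hg), ?_, h8, h9, by omega⟩
        rw [pow_succ, ← mul_assoc]
        exact hΩ0'.trans (Nat.mul_le_mul_right _ h7)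
      · by_cases hW1 : finrank ℝ W = 1
        · have hall : ∀ x : A, res ρ W hWi x * res ρ W hWi x = 1 := by
            intro x
            have h1 := hsign _ (hsq x)
            rw [map_mul] at h1
            refine h1.resolve_right fun h2 => ?_
            have h3 := Q23.ZQ.two_le (res ρ W hWi x) h2
            omega
          obtain ⟨Ω1, K1, E1, r, c1, c2, h1, h2, h3, h4, h5, h6, h7, h8, h9, h10⟩ :=
            ih (finrank ℝ (V ⧸ W)) (by omega) (V ⧸ W) rfl (quo ρ W hWi) (Ω0 ⊓ KerW ρ W hWi)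
              (K0 ⊓ KerW ρ W hWi) E0 (inf_le_inf_right _ hΩK) (inf_le_left.trans hKZ)
              (fun x hx => ⟨hE x hx, by
                change res ρ W hWi (x * x) = 1
                rw [map_mul]
                exact hall x⟩)
          refine ⟨Ω1, K1, E1, r + 1, c1 + 1, c2, h1.trans inf_le_left, h2, h3.trans inf_le_left,
            h4, h5, fun g hg => hlift g (h1 hg) (h6 g hg), ?_, ?_, h9, by omega⟩
          · rw [pow_succ, ← mul_assoc]
            exact hΩ0'.trans (Nat.mul_le_mul_right _ h7)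
          · rw [show c1 + 1 + c2 = c1 + c2 + 1 by ring, pow_succ, ← mul_assoc]
            exact (Nat.mul_le_mul_right _ h8).trans hK0'
        · obtain ⟨H, hH, hH2⟩ := caseB (res ρ W hWi) (by omega) (fun a => by
            rw [← map_mul]
            exact hsign _ (hsq a))
          have hE0' := half H E0 (fun x y _ _ hx hy => hH x y hx hy)
          obtain ⟨Ω1, K1, E1, r, c1, c2, h1, h2, h3, h4, h5, h6, h7, h8, h9, h10⟩ :=
            ih (finrank ℝ (V ⧸ W)) (by omega) (V ⧸ W) rfl (quo ρ W hWi) (Ω0 ⊓ KerW ρ W hWi)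
              (K0 ⊓ KerW ρ W hWi) (E0 ⊓ H) (inf_le_inf_right _ hΩK) (inf_le_left.trans hKZ)
              (fun x hx => ⟨hE x hx.1, by
                change res ρ W hWi (x * x) = 1
                rw [map_mul]
                exact hH2 x hx.2⟩)
          refine ⟨Ω1, K1, E1, r + 1, c1, c2 + 1, h1.trans inf_le_left, h2, h3.trans inf_le_left,
            h4.trans inf_le_left, h5, fun g hg => hlift g (h1 hg) (h6 g hg), ?_, ?_, ?_, by omega⟩
          · rw [pow_succ, ← mul_assoc]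
            exact hΩ0'.trans (Nat.mul_le_mul_right _ h7)
          · rw [← add_assoc, pow_succ, ← mul_assoc]
            exact (Nat.mul_le_mul_right _ h8).trans hK0'
          · rw [pow_succ, ← mul_assoc]
            exact hE0'.trans (Nat.mul_le_mul_right _ h9)

theorem zq_inj {n : ℕ} : Function.Injective (zq : (Fin n → ℤˣ) → (Fin n → QuaternionGroup 2)) := by
  intro ε ε' h
  funext i
  have h1 := congrFun h i
  have key : ∀ e e' : ℤˣ, (if e = 1 then 1 else QuaternionGroup.a 2 : QuaternionGroup 2) =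
      (if e' = 1 then 1 else QuaternionGroup.a 2) → e = e' := by decide
  exact key _ _ h1

/-- kernels of representations of subgroups of small index -/
theorem kerCard (n k j : ℕ) (E : Subgroup (Fin n → QuaternionGroup 2)) (hE : E.index ≤ 2 ^ k)
    (V : Type) [AddCommGroup V] [Module ℝ V] [FiniteDimensional ℝ V] (ρ : E →* (V →ₗ[ℝ] V))
    (hV : finrank ℝ V + 2 * k + 4 * j < 4 * n) :
    ∃ S : Subgroup (Fin n → ℤˣ), 2 ^ (j + 1) ≤ Nat.card S ∧
      ∀ ε ∈ S, ∃ h : zq ε ∈ E, ρ ⟨zq ε, h⟩ = 1 := by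
  classical
  set Z : Subgroup E := (zqh n).range.subgroupOf E with hZ
  have hZm : ∀ x : E, x ∈ Z ↔ ∃ ε, zq ε = x.1 := fun x => Iff.rfl
  have hZc : ∀ z ∈ Z, ∀ a, z * a = a * z := by
    intro z hz a
    obtain ⟨ε, hε⟩ := (hZm z).1 hz
    apply Subtype.ext
    change z.1 * a.1 = a.1 * z.1
    rw [← hε]
    funext i
    exact z_comm (a.1 i) (ε i)
  have hZ2 : ∀ z ∈ Z, z * z = 1 := by
    intro z hz
    obtain ⟨ε, hε⟩ := (hZm z).1 hz
    apply Subtype.ext
    change z.1 * z.1 = 1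
    rw [← hε]
    funext i
    exact z_sq (ε i)
  have hsq : ∀ a : E, a * a ∈ Z := by
    intro a
    rw [hZm]
    choose ε hε using fun i => sq_iff (a.1 i)
    refine ⟨ε, ?_⟩
    funext i
    exact (hε i).symm
  obtain ⟨Ω1, K1, E1, r, c1, c2, h1, h2, h3, -, h5, h6, h7, h8, h9, h10⟩ :=
    claim2 Z hZc hZ2 hsq _ V rfl ρ Z Z ⊤ le_rfl le_rfl (fun x _ => hsq x)
  have hcard : ∀ H : Subgroup E, Nat.card (H.map E.subtype) = Nat.card H := fun H =>
    Nat.card_congr (H.equivMapOfInjective E.subtype E.subtype_injective).toEquiv.symm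
  have hcount := counting (E1.map E.subtype) (K1.map E.subtype) (Z.map E.subtype) (by
      rintro _ ⟨x, hx, rfl⟩
      exact ⟨x * x, h5 x hx, rfl⟩) (by
      rintro _ ⟨x, hx, rfl⟩ hxx
      refine ⟨x, ?_, rfl⟩
      change x ∈ Z
      rw [hZm]
      have h11 : ∀ i, ∃ e : ℤˣ, x.1 i = if e = 1 then 1 else QuaternionGroup.a 2 := fun i =>
        (hq_iff2 _).1 ((hq_iff _).2 (congrFun hxx i))
      choose ε hε using h11
      refine ⟨ε, ?_⟩
      funext i
      exact (hε i).symm)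
  rw [hcard, hcard, hcard] at hcount
  have hM : Nat.card Z ≤ 2 ^ n := by
    rw [← hcard Z]
    have h11 : Z.map E.subtype ≤ (zqh n).range := by
      rintro _ ⟨x, hx, rfl⟩
      exact hx
    refine (Nat.card_le_card_of_injective _ (Subgroup.inclusion_injective h11)).trans ?_
    have h12 : Nat.card (zqh n).range ≤ Nat.card (Fin n → ℤˣ) :=
      Nat.card_le_card_of_surjective (zqh n).rangeRestrict (zqh n).rangeRestrict_surjective
    refine h12.trans (le_of_eq ?_)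
    rw [Nat.card_fun, Nat.card_eq_fintype_card (α := ℤˣ), Fintype.card_units_int, Nat.card_fin]
  have hidx : 8 ^ n ≤ Nat.card E * 2 ^ k := by
    have h11 : Nat.card E * E.index = 8 ^ n := by
      rw [Subgroup.card_mul_index, Nat.card_fun, Nat.card_fin]
      congr 1
      rw [Nat.card_eq_fintype_card]
      decide
    rw [← h11]
    exact Nat.mul_le_mul_left _ hE
  rw [Subgroup.card_top] at h9
  have hMj : 2 ^ (r + j) < Nat.card Z := arith2 hidx h9 hcount h8 hM (by omega)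
  have ho : 2 ^ (j + 1) ≤ Nat.card Ω1 := by
    have hp : IsPGroup 2 Ω1 := by
      intro x
      refine ⟨1, ?_⟩
      rw [pow_one, pow_two]
      apply Subtype.ext
      exact hZ2 x.1 (h1 x.2)
    obtain ⟨s, hs⟩ := IsPGroup.iff_card.1 hp
    rw [hs] at h7 ⊢
    rw [← pow_add] at h7
    have h11 : r + j < s + r := (Nat.pow_lt_pow_iff_right (by norm_num)).1 (hMj.trans_le h7)
    exact Nat.pow_le_pow_right (by norm_num) (by omega)
  refine ⟨(Ω1.map E.subtype).comap (zqh n), ho.trans ?_, ?_⟩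
  · have hc : ∀ x : Ω1, ∃ ε : Fin n → ℤˣ, zq ε = x.1.1 := fun x => (hZm x.1).1 (h1 x.2)
    choose f hf using hc
    refine Nat.card_le_card_of_injective (fun x : Ω1 => (⟨f x, ?_⟩ :
      (Ω1.map E.subtype).comap (zqh n))) ?_
    · exact ⟨x.1, x.2, (hf x).symm⟩
    · intro x y hxy
      have h11 : f x = f y := congrArg Subtype.val hxy
      apply Subtype.ext
      apply Subtype.ext
      rw [← hf x, ← hf y, h11]
  · rintro ε ⟨x, hx, hxε⟩
    have h11 : x.1 = zq ε := hxε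
    have hmem : zq ε ∈ E := by rw [← h11]; exact x.2
    refine ⟨hmem, ?_⟩
    have h12 : (⟨zq ε, hmem⟩ : E) = x := Subtype.ext h11.symm
    rw [h12]
    exact h6 x hx

section

variable {n : ℕ} {V : Type} [AddCommGroup V] [Module ℝ V] [FiniteDimensional ℝ V]

/-- kernels modulo an invariant subspace -/
theorem kc (j : ℕ) (ρ : (Fin n → QuaternionGroup 2) →* (V →ₗ[ℝ] V)) (W : Submodule ℝ V)
    (hW : Inv ρ W) (h : finrank ℝ V + 4 * j < 4 * n + finrank ℝ W) :
    ∃ S : Subgroup (Fin n → ℤˣ), 2 ^ (j + 1) ≤ Nat.card S ∧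
      ∀ ε ∈ S, ∀ v, ρ (zq ε) v - v ∈ W := by
  have hfr : finrank ℝ (V ⧸ W) + finrank ℝ W = finrank ℝ V :=
    Submodule.finrank_quotient_add_finrank W
  obtain ⟨S, h1, h2⟩ := kerCard n 0 j ⊤ (by rw [Subgroup.index_top]; norm_num) (V ⧸ W)
    ((quo ρ W hW).comp (Subgroup.subtype ⊤)) (by omega)
  refine ⟨S, h1, fun ε hε v => ?_⟩
  obtain ⟨h3, h4⟩ := h2 ε hε
  have h5 : W.mkQ (ρ (zq ε) v) = W.mkQ v := LinearMap.congr_fun h4 (W.mkQ v)
  rw [← Submodule.ker_mkQ W, LinearMap.mem_ker, map_sub, h5, sub_self]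

theorem zz (ρ : (Fin n → QuaternionGroup 2) →* (V →ₗ[ℝ] V)) (ε ε' : Fin n → ℤˣ) (v : V) :
    ρ (zq (ε * ε')) v = ρ (zq ε) (ρ (zq ε') v) := by
  have h1 : zq (ε * ε') = zq ε * zq ε' := map_mul (zqh n) ε ε'
  rw [h1, map_mul]
  rfl

theorem z1 (ρ : (Fin n → QuaternionGroup 2) →* (V →ₗ[ℝ] V)) (v : V) :
    ρ (zq (1 : Fin n → ℤˣ)) v = v := by
  have h1 : zq (1 : Fin n → ℤˣ) = 1 := map_one (zqh n)
  rw [h1, map_one]
  rfl

theorem zinv (ρ : (Fin n → QuaternionGroup 2) →* (V →ₗ[ℝ] V)) (ε : Fin n → ℤˣ) (v : V) :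
    ρ (zq ε) (ρ (zq ε) v) = v := by
  rw [← zz]
  have h1 : ε * ε = 1 := by
    funext i
    exact Int.units_mul_self _
  rw [h1, z1]

theorem zcomm (ρ : (Fin n → QuaternionGroup 2) →* (V →ₗ[ℝ] V)) (ε : Fin n → ℤˣ)
    (a : Fin n → QuaternionGroup 2) (v : V) : ρ (zq ε) (ρ a v) = ρ a (ρ (zq ε) v) := by
  have h1 : zq ε * a = a * zq ε := by
    funext i
    exact z_comm (a i) (ε i)
  have h2 : ρ (zq ε) * ρ a = ρ a * ρ (zq ε) := by rw [← map_mul, h1, map_mul]
  exact LinearMap.congr_fun h2 v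

/-- a central sign is a square in two anticommuting ways -/
theorem quat_pair (ε : Fin n → ℤˣ) : ∃ a b : Fin n → QuaternionGroup 2,
    a * a = zq ε ∧ b * b = zq ε ∧ a * b = zq ε * (b * a) := by
  have key : ∀ e : ℤˣ, ∃ a b : QuaternionGroup 2,
      a * a = (if e = 1 then 1 else QuaternionGroup.a 2) ∧
      b * b = (if e = 1 then 1 else QuaternionGroup.a 2) ∧
      a * b = (if e = 1 then 1 else QuaternionGroup.a 2) * (b * a) := by decide
  choose a b h1 h2 h3 using fun i => key (ε i)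
  exact ⟨a, b, funext h1, funext h2, funext h3⟩

/-- invariant subspaces on which some sign acts as `-1` -/
theorem four (ρ : (Fin n → QuaternionGroup 2) →* (V →ₗ[ℝ] V)) (W : Submodule ℝ V)
    (hW : Inv ρ W) (ε : Fin n → ℤˣ) (h : ∀ w ∈ W, ρ (zq ε) w = -w) (h0 : W ≠ ⊥) :
    4 ≤ finrank ℝ W := by
  obtain ⟨a, b, ha, hb, hab⟩ := quat_pair ε
  have hnt : Nontrivial W := Submodule.nontrivial_iff_ne_bot.2 h0
  have hσ : res ρ W hW (zq ε) = -1 := by
    ext w
    exact h w w.2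
  refine Q23.ZQ.four_le (res ρ W hW a) (res ρ W hW b) ?_ ?_ ?_
  · rw [← map_mul, ha, hσ]
  · rw [← map_mul, hb, hσ]
  · rw [← map_mul, hab, map_mul, map_mul, hσ]
    rfl

/-- a subspace of dimension less than four -/
theorem triv (ρ : (Fin n → QuaternionGroup 2) →* (V →ₗ[ℝ] V)) (W : Submodule ℝ V)
    (hW : Inv ρ W) (h : finrank ℝ W < 4) (ε : Fin n → ℤˣ) (w : V) (hw : w ∈ W) :
    ρ (zq ε) w = w := by
  by_contra hne
  let W' : Submodule ℝ V := W ⊓ LinearMap.ker (ρ (zq ε) + 1)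
  have hW' : Inv ρ W' := by
    intro a v hv
    refine ⟨hW a v hv.1, ?_⟩
    have h1 : ρ (zq ε) v + v = 0 := hv.2
    change ρ (zq ε) (ρ a v) + ρ a v = 0
    rw [zcomm, ← map_add, h1, map_zero]
  have h1 : w - ρ (zq ε) w ∈ W' := by
    refine ⟨W.sub_mem hw (hW _ _ hw), ?_⟩
    change ρ (zq ε) (w - ρ (zq ε) w) + (w - ρ (zq ε) w) = 0
    rw [map_sub, zinv]
    abel
  have h2 : W' ≠ ⊥ := by
    intro h3
    rw [h3, Submodule.mem_bot] at h1
    exact hne (sub_eq_zero.1 h1).symm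
  have h3 := four ρ W' hW' ε (fun v hv => eq_neg_of_add_eq_zero_left hv.2) h2
  have h4 : finrank ℝ W' ≤ finrank ℝ W := Submodule.finrank_mono inf_le_left
  omega

end

end Q23.ZB
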