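import Pool.Agent.Q23.ZB.Rep

/-!
# Representations with a swap of two sign changes
-/

set_option autoImplicit false
set_option linter.unusedSectionVars false

namespace Q23.ZB

open Module Q150.ZS
open Q4.ZS (zq)

section

variable {n : ℕ} {V : Type} [AddCommGroup V] [Module ℝ V] [FiniteDimensional ℝ V]

theorem self_neg {v : V} (h : v = -v) : v = 0 := by
  have h1 : (2 : ℝ) • v = 0 := by
    rw [two_smul]
    nth_rewrite 1 [h]
    exact neg_add_cancel v
  exact (smul_eq_zero.1 h1).resolve_left two_ne_zero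

theorem unip (ρ : (Fin n → QuaternionGroup 2) →* (V →ₗ[ℝ] V)) (W : Submodule ℝ V)
    (ε : Fin n → ℤˣ) (h1 : ∀ v, ρ (zq ε) v - v ∈ W) (h2 : ∀ w ∈ W, ρ (zq ε) w = w) :
    ρ (zq ε) = 1 := by
  ext v
  have h3 := h2 _ (h1 v)
  rw [map_sub, zinv] at h3
  have h4 : ρ (zq ε) v - v = -(ρ (zq ε) v - v) := by
    rw [neg_sub]
    exact h3.symm
  exact sub_eq_zero.1 (self_neg h4)

/-- a nontrivial element of a subgroup of order at least two -/
theorem nontriv (S : Subgroup (Fin n → ℤˣ)) (h : 2 ≤ Nat.card S) : ∃ ε ∈ S, ε ≠ 1 := by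
  by_contra hcon
  push Not at hcon
  have h1 : S = ⊥ := (Subgroup.eq_bot_iff_forall S).2 hcon
  rw [h1, Subgroup.card_bot] at h
  omega

/-- a pair of commuting sign changes which are swapped -/
theorem rswap (ρ : (Fin n → QuaternionGroup 2) →* (V →ₗ[ℝ] V)) (S S' T : V →ₗ[ℝ] V)
    (hSS : ∀ v, S (S v) = v) (hSS' : ∀ v, S' (S' v) = v) (hc : ∀ v, S (S' v) = S' (S v))
    (hS : ∀ a v, S (ρ a v) = ρ a (S v)) (hS' : ∀ a v, S' (ρ a v) = ρ a (S' v))
    (hT : ∀ (ε : Fin n → ℤˣ) v, T (ρ (zq ε) v) = ρ (zq ε) (T v)) (hTT : ∀ v, T (T v) = v)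
    (hTS : ∀ v, T (S v) = S' (T v)) (hV : finrank ℝ V < 4 * n + 2) :
    (∀ v, S (S' v) = v) ∨ ∃ ε : Fin n → ℤˣ, ε ≠ 1 ∧ ρ (zq ε) = 1 := by
  by_cases h0 : ∀ v, S (S' v) = v
  · exact Or.inl h0
  right
  push Not at h0
  obtain ⟨v0, hv0⟩ := h0
  have hTS' : ∀ v, T (S' v) = S (T v) := by
    intro v
    have h1 := hTS (T v)
    rw [hTT] at h1
    rw [← hTT (S (T v)), h1]
  let X : Submodule ℝ V := LinearMap.ker (S + 1) ⊓ LinearMap.ker (S' - 1)
  let Y : Submodule ℝ V := LinearMap.ker (S - 1) ⊓ LinearMap.ker (S' + 1)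
  have hXm : ∀ v, v ∈ X ↔ S v = -v ∧ S' v = v := by
    intro v
    constructor
    · rintro ⟨h1, h2⟩
      exact ⟨eq_neg_of_add_eq_zero_left h1, sub_eq_zero.1 h2⟩
    · rintro ⟨h1, h2⟩
      refine ⟨?_, ?_⟩
      · change S v + v = 0
        rw [h1, neg_add_cancel]
      · change S' v - v = 0
        rw [h2, sub_self]
  have hYm : ∀ v, v ∈ Y ↔ S v = v ∧ S' v = -v := by
    intro v
    constructor
    · rintro ⟨h1, h2⟩
      exact ⟨sub_eq_zero.1 h1, eq_neg_of_add_eq_zero_left h2⟩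
    · rintro ⟨h1, h2⟩
      refine ⟨?_, ?_⟩
      · change S v - v = 0
        rw [h1, sub_self]
      · change S' v + v = 0
        rw [h2, neg_add_cancel]
  have hXi : Inv ρ X := by
    intro a v hv
    rw [hXm] at hv ⊢
    rw [hS, hS', hv.1, hv.2, map_neg]
    exact ⟨rfl, rfl⟩
  have hYi : Inv ρ Y := by
    intro a v hv
    rw [hYm] at hv ⊢
    rw [hS, hS', hv.1, hv.2, map_neg]
    exact ⟨rfl, rfl⟩
  have hTX : ∀ v ∈ X, T v ∈ Y := by
    intro v hv
    rw [hXm] at hv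
    rw [hYm, ← hTS', ← hTS, hv.1, hv.2, map_neg]
    exact ⟨rfl, rfl⟩
  have hTY : ∀ v ∈ Y, T v ∈ X := by
    intro v hv
    rw [hYm] at hv
    rw [hXm, ← hTS', ← hTS, hv.1, hv.2, map_neg]
    exact ⟨rfl, rfl⟩
  have hdisj : X ⊓ Y = ⊥ := by
    rw [eq_bot_iff]
    rintro v ⟨h1, h2⟩
    rw [SetLike.mem_coe, hXm] at h1
    rw [SetLike.mem_coe, hYm] at h2
    rw [Submodule.mem_bot]
    exact self_neg (h2.1.symm.trans h1.1)
  have hX0 : X ≠ ⊥ := by
    intro hX
    have hY : Y = ⊥ := by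
      rw [eq_bot_iff]
      intro v hv
      have h1 := hTY v hv
      rw [hX, Submodule.mem_bot] at h1
      rw [Submodule.mem_bot, ← hTT v, h1, map_zero]
    set w := v0 - S (S' v0) with hw
    have hw0 : w ≠ 0 := fun h => hv0 (sub_eq_zero.1 h).symm
    have hw1 : S (S' w) = -w := by
      rw [hw, map_sub, map_sub, hc (S (S' v0)), hSS, hSS']
      abel
    have hw1' : S' (S w) = -w := by rw [← hc]; exact hw1
    have h2 : w - S w ∈ X := by
      rw [hXm]
      have h3 : S' (S w) = -w := hw1'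
      have h4 : S' w = -(S w) := by
        rw [← hSS (S' w), hw1, map_neg]
      refine ⟨?_, ?_⟩
      · rw [map_sub, hSS]
        abel
      · rw [map_sub, h3, h4]
        abel
    rw [hX, Submodule.mem_bot] at h2
    have h3 : S w = w := (sub_eq_zero.1 h2).symm
    have h4 : w ∈ Y := by
      rw [hYm]
      refine ⟨h3, ?_⟩
      rw [← h3, hw1', h3]
    rw [hY, Submodule.mem_bot] at h4
    exact hw0 h4
  have hXY : finrank ℝ X ≤ finrank ℝ Y := by
    let f : X →ₗ[ℝ] Y := (T.comp X.subtype).codRestrict Y (fun x => hTX x.1 x.2)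
    refine LinearMap.finrank_le_finrank_of_injective (f := f) ?_
    intro x y hxy
    have h1 : T x.1 = T y.1 := congrArg Subtype.val hxy
    apply Subtype.ext
    rw [← hTT x.1, h1, hTT]
  have hYX : finrank ℝ Y ≤ finrank ℝ X := by
    let f : Y →ₗ[ℝ] X := (T.comp Y.subtype).codRestrict X (fun x => hTY x.1 x.2)
    refine LinearMap.finrank_le_finrank_of_injective (f := f) ?_
    intro x y hxy
    have h1 : T x.1 = T y.1 := congrArg Subtype.val hxy
    apply Subtype.ext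
    rw [← hTT x.1, h1, hTT]
  have hnt : Nontrivial X := Submodule.nontrivial_iff_ne_bot.2 hX0
  have hXpos : 0 < finrank ℝ X := Module.finrank_pos
  by_cases h2 : 2 ≤ finrank ℝ X
  · obtain ⟨S0, hS1, hS2⟩ := kc 0 ρ X hXi (by omega)
    obtain ⟨ε, hε, hε1⟩ := nontriv S0 hS1
    refine ⟨ε, hε1, unip ρ X ε (hS2 ε hε) ?_⟩
    have hY1 : ∀ y ∈ Y, ρ (zq ε) y = y := by
      intro y hy
      have h3 : ρ (zq ε) y - y ∈ X ⊓ Y := ⟨hS2 ε hε y, Y.sub_mem (hYi _ _ hy) hy⟩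
      rw [hdisj, Submodule.mem_bot] at h3
      exact sub_eq_zero.1 h3
    intro x hx
    have h3 := hY1 _ (hTX x hx)
    rw [← hT] at h3
    have h4 := congrArg T h3
    rwa [hTT, hTT] at h4
  · have hW : Inv ρ (X ⊔ Y) := by
      intro a v hv
      obtain ⟨x, hx, y, hy, rfl⟩ := Submodule.mem_sup.1 hv
      rw [map_add]
      exact Submodule.mem_sup.2 ⟨_, hXi a x hx, _, hYi a y hy, rfl⟩
    have h3 := Submodule.finrank_sup_add_finrank_inf_eq X Y
    rw [hdisj, finrank_bot, add_zero] at h3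
    obtain ⟨S0, hS1, hS2⟩ := kc 0 ρ (X ⊔ Y) hW (by omega)
    obtain ⟨ε, hε, hε1⟩ := nontriv S0 hS1
    exact ⟨ε, hε1, unip ρ (X ⊔ Y) ε (hS2 ε hε) fun w hw => triv ρ (X ⊔ Y) hW (by omega) ε w hw⟩

end

end Q23.ZB
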